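import Pool.Agent.T6helper6.MT.Lef

/-!
# One realisation is enough
-/

set_option autoImplicit false
set_option linter.unusedSectionVars false
set_option linter.unusedSimpArgs false
set_option backward.isDefEq.respectTransparency false
set_option backward.defeqAttrib.useBackward true

open CategoryTheory Limits MonoidalCategory Pretriangulated Triangulated TensorProduct ZeroObject
namespace Pool.Agent.T6helper6.MT
open Pool.Agent.Y116.MT Pool.Agent.V1178.MT
universe v u w

section

variable {C : Type u} [Category.{v} C] [Preadditive C] [HasZeroObject C] [HasShift C ℤ]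
  [∀ n : ℤ, (shiftFunctor C n).Additive] [Pretriangulated C]

/-- The thick subcategory generated by a class of objects. -/
inductive Gen (P : C → Prop) : C → Prop
  | of {X : C} : P X → Gen P X
  | shift {X : C} (n : ℤ) : Gen P X → Gen P (X⟦n⟧)
  | cone {X Y Z : C} {f : X ⟶ Y} {g : Y ⟶ Z} {h : Z ⟶ X⟦(1 : ℤ)⟧} :
      Triangle.mk f g h ∈ distTriang C → Gen P X → Gen P Y → Gen P Z
  | retract {X Y : C} (i : Y ⟶ X) (r : X ⟶ Y) : i ≫ r = 𝟙 Y → Gen P X → Gen P Y

end

section

variable {C : Type u} [Category.{v} C] [Preadditive C] [HasZeroObject C] [HasShift C ℤ]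
  [∀ n : ℤ, (shiftFunctor C n).Additive] [Pretriangulated C] [MonoidalCategory C]
  [SymmetricCategory C] [TensorTriangulated C]
  {E : Type w} [Field E]

/-- `X` satisfies the hard Lefschetz theorem with middle degree `e` for the realisation `R`: there
are morphisms from `X` to its twists which induce isomorphisms from the cohomology in degree
`e - k` to the one in degree `e + k`. -/
def HardLefschetz (R : Realisation C E) (T X : C) (e : ℤ) : Prop :=
  ∀ k : ℕ, ∃ L : X ⟶ twist T X k, IsIso (R.H.map (L⟦e - k⟧'))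

end

section

variable {C : Type u} [Category.{v} C] [Preadditive C] [HasZeroObject C] [HasShift C ℤ]
  [∀ n : ℤ, (shiftFunctor C n).Additive] [Pretriangulated C] [MonoidalCategory C]
  [SymmetricCategory C] [TensorTriangulated C] [MonoidalPreadditive C] [RightRigidCategory C]
  [IsTriangulated C]
  {E : Type w} [Field E] {R : Realisation C E} {E' : Type w} [Field E'] {R' : Realisation C E'}
  {t : TStructure C} (he : TExact t R) (hc : Conservative R)

include he hc

lemma exists_bounds (X : C) : ∃ a b : ℤ, a ≤ b ∧ t.IsGE X a ∧ t.IsLE X b := by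
  obtain ⟨N, hN⟩ := R.bounded X
  exact ⟨-N, N, by omega, isGE_of hc he (fun i hi => hN i (by omega)),
    isLE_of hc he (fun i hi => hN i (by omega))⟩

lemma cn_of_deg {X : C} {n : ℤ} (h : R.Deg X n) : Cn t n X :=
  ⟨isLE_of hc he (fun i hi => h i (by omega)), isGE_of hc he (fun i hi => h i (by omega))⟩

/-- The cohomology objects of an object with the hard Lefschetz theorem are good. -/
theorem pc_of_lefschetz (ht : TensorCompat t) (hu : Hrt t (𝟙_ C))
    (hid : ∀ e : 𝟙_ C ⟶ 𝟙_ C, e ≫ e = e → e = 0 ∨ e = 𝟙 _) {T T' : C} (i : T ⊗ T' ≅ 𝟙_ C)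
    (hT : R.Deg T (-2)) (hT' : R'.Deg T (-2)) {X : C} (hX : ∀ i, hd R' X i = hd R X i) (e : ℤ)
    (hL : HardLefschetz R T X e) (n : ℤ) : Pc t R R' n (Hob t X n) := by
  obtain ⟨a, b, hab, ha, hb⟩ := exists_bounds he hc X
  have hz : ∀ n, (n < a ∨ b < n) → IsZero (Hob t X n) := by
    intro n hn
    have h1 : hd R (Hob t X n) n = 0 := by
      rw [(isH_hob X n).hd he]
      rcases hn with hn | hn
      · exact hd_eq_zero.2 (he.isGE ha _ hn)
      · exact hd_eq_zero.2 (he.isLE hb _ hn)
    apply hc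
    intro j
    by_cases hj : j = n
    · subst hj
      exact hd_eq_zero.1 h1
    · exact (isH_hob X n).cn.deg he j hj
  choose N hN using fun n => hd_fin R' (Hob t X n)
  let M : ℤ := |e| + |a| + |b| + ∑ n ∈ Finset.Icc a b, (N n : ℤ)
  have hM : 0 ≤ ∑ n ∈ Finset.Icc a b, (N n : ℤ) :=
    Finset.sum_nonneg (fun _ _ => Int.natCast_nonneg _)
  have hS : ∀ n, a ≤ n → n ≤ b → n ∈ Finset.Icc (e - M) (e + M) := by
    intro n h1 h2
    rw [Finset.mem_Icc]
    have h3 := neg_abs_le e
    have h4 := le_abs_self e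
    have h5 := neg_abs_le a
    have h6 := le_abs_self b
    have h7 := abs_nonneg a
    have h8 := abs_nonneg b
    constructor <;> simp only [M] <;> linarith
  have h0 : ∀ n j, hd R' (Hob t X n) j ≠ 0 → n ∈ Finset.Icc (e - M) (e + M) ∧
      j ∈ Finset.Icc (e - M) (e + M) := by
    intro n j hj
    have h1 : a ≤ n ∧ n ≤ b := by
      by_contra h
      exact hj (hd_eq_zero.2 (R'.H.map_isZero (isZero_shift (hz n (by omega)) j)))
    refine ⟨hS n h1.1 h1.2, ?_⟩
    have h2 : j ∈ Finset.Icc (-(N n) : ℤ) (N n) := by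
      by_contra h
      exact hj (hN n j h)
    have h3 := Finset.single_le_sum (f := fun n => (N n : ℤ)) (s := Finset.Icc a b)
      (fun _ _ => Int.natCast_nonneg _) (Finset.mem_Icc.2 h1)
    rw [Finset.mem_Icc] at h2 ⊢
    have h4 := neg_abs_le e
    have h5 := le_abs_self e
    have h7 := abs_nonneg a
    have h8 := abs_nonneg b
    constructor <;> simp only [M] <;> linarith [h2.1, h2.2]
  have key := numeric (fun j => hd R X j) (fun n j => hd R' (Hob t X n) j) e
    (Finset.Icc (e - M) (e + M)) (fun n hn => by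
      rw [Finset.mem_Icc] at hn ⊢
      constructor <;> linarith [hn.1, hn.2]) h0 (fun n => ?_) (fun j => ?_) (fun k j => ?_) n
  · refine ⟨(isH_hob X n).cn, ?_⟩
    rw [(isH_hob X n).hd he]
    exact key
  · have h1 := tot_le_cn (R' := R') ht he hu hid (isH_hob X n).cn
    rw [(isH_hob X n).hd he, tot_eq_sum (s := Finset.Icc (e - M) (e + M))] at h1
    · exact h1
    · intro j hj
      by_contra h
      exact hj (h0 n j h).2
  · have h1 := hd_le_sum (R' := R') he hc (b - a + 1).toNat X a b (by omega) ha hb j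
    rw [hX] at h1
    refine h1.trans (Finset.sum_le_sum_of_subset ?_)
    intro n hn
    rw [Finset.mem_Icc] at hn
    exact hS n hn.1 hn.2
  · obtain ⟨L, hL⟩ := hL k
    have h1 : IsH t (e - k + 2 * k) X (Hob t X (e + k)) := by
      have := isH_hob (t := t) X (e + k)
      convert this using 1
      ring
    obtain ⟨i1⟩ := (isH_hob (t := t) X (e - k)).map he hc
      (IsH.twists ht (cn_of_deg he hc hT) k h1) L hL
    rw [hd_iso i1, hd_twl i hT']

end

section

variable {C : Type u} [Category.{v} C] [Preadditive C] [HasZeroObject C] [HasShift C ℤ]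
  [∀ n : ℤ, (shiftFunctor C n).Additive] [Pretriangulated C] [MonoidalCategory C]
  [SymmetricCategory C] [TensorTriangulated C] [MonoidalPreadditive C] [RightRigidCategory C]
  [IsTriangulated C]
  {E : Type w} [Field E] {R : Realisation C E} {E' : Type w} [Field E'] {R' : Realisation C E'}
  {t : TStructure C} (ht : TensorCompat t) (he : TExact t R) (hu : Hrt t (𝟙_ C))
  (hid : ∀ e : 𝟙_ C ⟶ 𝟙_ C, e ≫ e = e → e = 0 ∨ e = 𝟙 _)

include ht he hu hid

lemma fil_of_gen {P : C → Prop} (hP : ∀ X, P X → ∃ a, Fil t R R' a X) {X : C}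
    (hX : Gen P X) : ∃ a, Fil t R R' a X := by
  induction hX with
  | of h => exact hP _ h
  | shift n h ih =>
    obtain ⟨a, ha⟩ := ih
    exact ⟨a - n, ha.shift n (a - n) (by omega)⟩
  | cone hT h1 h2 ih1 ih2 =>
    obtain ⟨a, ha⟩ := ih1
    obtain ⟨b, hb⟩ := ih2
    exact Fil.cone ht he hu hid hT ha hb
  | retract i r hir h ih =>
    obtain ⟨a, ha⟩ := ih
    exact ⟨a, Fil.retract ht he hu hid ha i r hir⟩

/-- A second realisation is t-exact. -/
theorem texact_second (hc : Conservative R) {P : C → Prop} (hgen : ∀ X, Gen P X)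
    {T T' : C} (i : T ⊗ T' ≅ 𝟙_ C) (hT : R.Deg T (-2)) (hT' : R'.Deg T (-2))
    (hP : ∀ X, P X → (∀ i, hd R' X i = hd R X i) ∧ ∃ e, HardLefschetz R T X e) :
    TExact t R' := by
  have h1 : ∀ X, ∃ a, Fil t R R' a X := by
    intro X
    refine fil_of_gen ht he hu hid (fun X hX => ?_) (hgen X)
    obtain ⟨h2, e, h3⟩ := hP X hX
    obtain ⟨a, b, hab, ha, hb⟩ := exists_bounds he hc X
    exact ⟨a, fil_of_pc he hc (b - a + 1).toNat X a b (by omega) ha hb
      (pc_of_lefschetz he hc ht hu hid i hT hT' h2 e h3)⟩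
  constructor
  · intro X hX j hj
    obtain ⟨a, ha⟩ := h1 X
    exact Fil.exact_le ht he hu hid ha 0 ⟨hX⟩ j hj
  · intro X hX j hj
    obtain ⟨a, ha⟩ := h1 X
    exact Fil.exact_ge ht he hu hid ha 0 ⟨hX⟩ j hj

/-- Two t-exact realisations have the same Betti numbers. -/
theorem betti_le (he' : TExact t R') (X : C) (i : ℤ) :
    hd R' X i ≤ hd R X i := by
  have h1 := isH_hob (t := t) X i
  rw [← h1.hd he, ← h1.hd he']
  exact (hd_le_tot _ _).trans (tot_le_cn ht he hu hid h1.cn)

end

end Pool.Agent.T6helper6.MT
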