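import Pool.Agent.T6helper6.MT.Crit
import Pool.Agent.Y116.MT.Trace

/-!
# The motivic t-structure exists if the top cohomology of every object is potentially motivic
-/

set_option autoImplicit false
set_option linter.unusedSectionVars false
set_option linter.unusedSimpArgs false
set_option backward.isDefEq.respectTransparency false
set_option backward.defeqAttrib.useBackward true

open CategoryTheory Limits MonoidalCategory Pretriangulated Triangulated ZeroObject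

namespace Pool.Agent.T6helper6.MT

open Pool.Agent.Y116.MT Pool.Agent.V1178.MT

universe v u w

section

variable {C : Type u} [Category.{v} C] [Preadditive C] [HasZeroObject C] [HasShift C ℤ]
  [∀ n : ℤ, (shiftFunctor C n).Additive] [Pretriangulated C] [MonoidalCategory C]
  [SymmetricCategory C] [TensorTriangulated C]

section One

variable {E : Type w} [Field E] {R : Realisation C E}

lemma isIso_shift_zero {X Y : C} (f : X ⟶ Y) (h : IsIso (R.H.map f)) :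
    IsIso (R.H.map (f⟦(0 : ℤ)⟧')) := by
  have h5 : f⟦(0 : ℤ)⟧' = (shiftFunctorZero C ℤ).hom.app _ ≫ f ≫
      (shiftFunctorZero C ℤ).inv.app _ := shiftZero' (A := ℤ) (f := f)
  rw [h5, Functor.map_comp, Functor.map_comp]
  infer_instance

lemma isIso_of_shift_zero {X Y : C} (f : X ⟶ Y) (h : IsIso (R.H.map (f⟦(0 : ℤ)⟧'))) :
    IsIso (R.H.map f) := by
  have h5 : f = (shiftFunctorZero C ℤ).inv.app _ ≫ f⟦(0 : ℤ)⟧' ≫
      (shiftFunctorZero C ℤ).hom.app _ := by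
    rw [shiftZero' (A := ℤ) (f := f)]
    simp
  rw [h5, Functor.map_comp, Functor.map_comp]
  infer_instance

lemma RLe.retract {n : ℤ} {X Y : C} (h : RLe R n X) (i : Y ⟶ X) (r : X ⟶ Y)
    (hir : i ≫ r = 𝟙 _) : RLe R n Y := fun j hj => by
  rw [IsZero.iff_id_eq_zero]
  have h1 : 𝟙 (R.H.obj (Y⟦j⟧)) = R.H.map (i⟦j⟧') ≫ R.H.map (r⟦j⟧') := by
    rw [← Functor.map_comp, ← Functor.map_comp, hir, CategoryTheory.Functor.map_id,
      CategoryTheory.Functor.map_id]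
  rw [h1, (h j hj).eq_of_tgt (R.H.map (i⟦j⟧')) 0, zero_comp]

/-- The vanishing part of the Künneth formula. -/
lemma tensor_zero {X Y : C} {n : ℤ}
    (h : ∀ i : ℤ, IsZero (R.H.obj (X⟦i⟧)) ∨ IsZero (R.H.obj (Y⟦n - i⟧))) :
    IsZero (R.H.obj ((X ⊗ Y)⟦n⟧)) := by
  have h0 : IsZero (R.H.obj (X ⊗ Y⟦n⟧)) := by
    rw [ModuleCat.isZero_iff_subsingleton]
    have h1 : ∀ i : ℤ, Subsingleton (R.H.obj (X⟦i⟧) ⊗ R.H.obj (Y⟦n⟧⟦-i⟧) : ModuleCat.{w} E) := by
      intro i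
      rcases h i with hi | hi
      · exact tensor_subsingleton_left hi
      · exact tensor_subsingleton_right (hi.of_iso
          (R.H.mapIso ((shiftFunctorAdd' C n (-i) (n - i) (by omega)).app Y).symm))
    have h2 : Subsingleton (DirectSum ℤ (fun i : ℤ =>
        (R.H.obj (X⟦i⟧) ⊗ R.H.obj (Y⟦n⟧⟦-i⟧) : ModuleCat.{w} E))) := by
      constructor
      intro x y
      ext i
      have := h1 i
      exact Subsingleton.elim _ _
    exact (R.kunneth X (Y⟦n⟧)).2.subsingleton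
  exact h0.of_iso (R.H.mapIso (rShift X Y n).symm)

lemma RLe.tensor {a b : ℤ} {X Y : C} (hX : RLe R a X) (hY : RLe R b Y) :
    RLe R (a + b) (X ⊗ Y) := by
  intro n hn
  apply tensor_zero
  intro i
  by_cases hi : a < i
  · exact Or.inl (hX i hi)
  · exact Or.inr (hY _ (by omega))

lemma RGe.tensor {a b : ℤ} {X Y : C} (hX : RGe R a X) (hY : RGe R b Y) :
    RGe R (a + b) (X ⊗ Y) := by
  intro n hn
  apply tensor_zero
  intro i
  by_cases hi : i < a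
  · exact Or.inl (hX i hi)
  · exact Or.inr (hY _ (by omega))

/-- Descent of truncation triangles to direct summands. -/
lemma trunc_desc [IsIdempotentComplete C] {n : ℤ}
    (ho : ∀ {A B : C}, RLe R n A → RGe R (n + 1) B → ∀ f : A ⟶ B, f = 0)
    {X Y A B : C} {i : X ⟶ Y} {r : Y ⟶ X} (hir : i ≫ r = 𝟙 _) {a : A ⟶ Y} {b : Y ⟶ B}
    {d : B ⟶ A⟦(1 : ℤ)⟧} (hT : Triangle.mk a b d ∈ distTriang C) (hA : RLe R n A)
    (hB : RGe R (n + 1) B) :
    ∃ (A B : C) (f : A ⟶ X) (g : X ⟶ B) (h : B ⟶ A⟦(1 : ℤ)⟧),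
      Triangle.mk f g h ∈ distTriang C ∧ RLe R n A ∧ RGe R (n + 1) B := by
  obtain ⟨e, he⟩ := ce2 hT (a ≫ r ≫ i) (ho hA hB _)
  have hee : e ≫ e = e := by
    have h1 : (e ≫ e - e) ≫ a = 0 := by
      rw [Preadditive.sub_comp, Category.assoc, ← he, ← Category.assoc e a, ← he]
      simp only [Category.assoc]
      rw [reassoc_of% hir, sub_self]
    obtain ⟨l, hl⟩ := ce1 hT ((e ≫ e - e)⟦(1 : ℤ)⟧') (by
      rw [← Functor.map_comp, h1, Functor.map_zero])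
    have h2 : l = 0 := ho ((hA.shift 1 (n - 1) (by omega)).mono (by omega)) hB l
    have h3 : (e ≫ e - e)⟦(1 : ℤ)⟧' = 0 := by rw [hl, h2, zero_comp]
    have h4 : e ≫ e - e = 0 :=
      (shiftFunctor C (1 : ℤ)).map_injective (by rw [h3, Functor.map_zero])
    exact sub_eq_zero.1 h4
  obtain ⟨A', ι, π, h1, h2⟩ := IsIdempotentComplete.idempotents_split A e hee
  obtain ⟨B', g', d', hT'⟩ := distinguished_cocone_triangle (ι ≫ a ≫ r)
  have hA' : RLe R n A' := hA.retract ι π h1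
  have hιe : ι ≫ e = ι := by rw [← h2, reassoc_of% h1]
  have c1 : (ι ≫ a ≫ r) ≫ i = ι ≫ a := by
    simp only [Category.assoc]
    rw [he, reassoc_of% hιe]
  have c2 : π ≫ (ι ≫ a ≫ r) = a ≫ r := by
    rw [reassoc_of% h2, ← reassoc_of% he, hir, Category.comp_id]
  have key : ∀ j : ℤ, j ≤ n → IsIso (R.H.map ((ι ≫ a ≫ r)⟦j⟧')) := by
    intro j hj
    have b1 : Mono (R.H.map (a⟦j⟧')) := hmono1 R.H hT j (hB _ (by omega))
    have b2 : Epi (R.H.map (a⟦j⟧')) := hepi1 R.H hT j (hB _ (by omega))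
    have b3 : IsIso (R.H.map (a⟦j⟧')) := isIso_of_mono_of_epi _
    refine ⟨R.H.map (i⟦j⟧') ≫ inv (R.H.map (a⟦j⟧')) ≫ R.H.map (π⟦j⟧'), ?_, ?_⟩
    · rw [← Category.assoc, ← Functor.map_comp, ← Functor.map_comp, c1, Functor.map_comp,
        Functor.map_comp, Category.assoc, IsIso.hom_inv_id_assoc, ← Functor.map_comp,
        ← Functor.map_comp, h1, CategoryTheory.Functor.map_id, CategoryTheory.Functor.map_id]
    · simp only [Category.assoc]
      rw [← Functor.map_comp, ← Functor.map_comp, c2, Functor.map_comp, Functor.map_comp,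
        IsIso.inv_hom_id_assoc, ← Functor.map_comp, ← Functor.map_comp, hir,
        CategoryTheory.Functor.map_id, CategoryTheory.Functor.map_id]
  refine ⟨A', B', _, g', d', hT', hA', fun j hj => ?_⟩
  have b1 := key j (by omega)
  apply hz3_of_iso R.H hT'
  · infer_instance
  · by_cases hj' : j + 1 ≤ n
    · have b2 := key (j + 1) hj'
      infer_instance
    · exact IsZero.mono (hA' _ (by omega)) _

end One

section Dual

variable [MonoidalPreadditive C] {E : Type w} [Field E] {R : Realisation C E}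

open Functor.LaxMonoidal in
lemma dual_vanish {V W U S : C} (q : V ⊗ W ⟶ S) (η : 𝟙_ C ⟶ W ⊗ U) (p : S ⊗ U ⟶ V)
    [IsIso (μ R.H W U)] (hS : IsZero (R.H.obj S))
    (hz : (ρ_ V).inv ≫ V ◁ η ≫ (α_ V W U).inv ≫ q ▷ U ≫ p = 𝟙 V) : IsZero (R.H.obj V) := by
  rw [IsZero.iff_id_eq_zero, ← CategoryTheory.Functor.map_id, ← hz]
  simp only [Functor.map_comp]
  rw [← Functor.LaxMonoidal.right_unitality_inv_assoc, ← μ_natural_right_assoc]
  have h1 : R.H.obj V ◁ R.H.map η = R.H.obj V ◁ (R.H.map η ≫ inv (μ R.H W U)) ≫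
      R.H.obj V ◁ μ R.H W U := by
    rw [← MonoidalCategory.whiskerLeft_comp]
    simp
  have h2 : R.H.map q = 0 := hS.eq_of_tgt _ _
  have h3 : (0 : R.H.obj (V ⊗ W) ⟶ R.H.obj S) ▷ R.H.obj U = 0 := (tensorRight _).map_zero _ _
  rw [h1, Category.assoc, Functor.LaxMonoidal.associativity_inv_assoc, ← μ_natural_left_assoc,
    h2, h3]
  simp

lemma deg_dual [RightRigidCategory C] {W : C} (hW : R.Deg W 0) : R.Deg Wᘁ 0 := by
  intro i hi
  have h0 := hW.isIso_mu Wᘁ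
  let S : C := (𝟙_ C)⟦i⟧
  have hS : IsZero (R.H.obj S) := deg_unit i hi
  have h1 : IsZero (R.H.obj (S ⊗ Wᘁ)) := by
    apply dual_vanish (V := S ⊗ Wᘁ) ((α_ S Wᘁ W).hom ≫ S ◁ ε_ W Wᘁ ≫ (ρ_ S).hom) (η_ W Wᘁ) (𝟙 _) hS
    calc _ = 𝟙 _ ⊗≫ S ◁ (Wᘁ ◁ η_ W Wᘁ ⊗≫ ε_ W Wᘁ ▷ Wᘁ) ⊗≫ 𝟙 _ := by monoidal
      _ = 𝟙 _ := by rw [ExactPairing.coevaluation_evaluation'']; monoidal
  refine h1.of_iso (R.H.mapIso ?_)
  exact ((shiftFunctor C i).mapIso (λ_ _).symm) ≪≫ (lShift (𝟙_ C) Wᘁ i).symm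

end Dual

section Trace

variable [MonoidalPreadditive C] [RightRigidCategory C] {E : Type w} [Field E] [CharZero E]
  {R : Realisation C E}

/-- The trace of the identity of a nonzero object in degree zero is invertible. -/
lemma isIso_tr (hc : Conservative R) {W : C} (hW : R.Deg W 0) (hW0 : ¬ IsZero W) :
    IsIso (tr (𝟙 W)) := by
  apply isIso_of_conservative hc
  intro i
  by_cases hi : i = 0
  · subst hi
    apply isIso_shift_zero
    have h1 := H_trace hW (𝟙 W)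
    rw [CategoryTheory.Functor.map_id] at h1
    have h2 : LinearMap.trace E (R.H.obj W) (𝟙 (R.H.obj W) : R.H.obj W ⟶ R.H.obj W).hom =
        Module.finrank E (R.H.obj W) := LinearMap.trace_id E (R.H.obj W)
    rw [h2] at h1
    have h3 : ¬ IsZero (R.H.obj W) := by
      intro h3
      apply hW0
      apply hc
      intro j
      by_cases hj : j = 0
      · subst hj
        exact h3.of_iso (R.H.mapIso ((shiftFunctorZero C ℤ).app W))
      · exact hW j hj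
    have h4 : Module.finrank E (R.H.obj W) ≠ 0 := by
      rw [ModuleCat.isZero_iff_subsingleton, not_subsingleton_iff_nontrivial] at h3
      exact Module.finrank_pos.ne'
    have h5 : IsIso (Functor.LaxMonoidal.ε R.H ≫ R.H.map (tr (𝟙 W)) ≫
        inv (Functor.LaxMonoidal.ε R.H)) := by
      rw [ConcreteCategory.isIso_iff_bijective]
      set φ : E →ₗ[E] E := (Functor.LaxMonoidal.ε R.H ≫ R.H.map (tr (𝟙 W)) ≫
        inv (Functor.LaxMonoidal.ε R.H)).hom with hφ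
      have h6 : φ 1 ≠ 0 := by
        rw [show φ 1 = (Module.finrank E (R.H.obj W) : E) from h1]
        exact_mod_cast h4
      have h7 : ∀ x : E, φ x = x * φ 1 := fun x => by
        have := φ.map_smul x 1
        simpa using this
      constructor
      · intro x y hxy
        have h8 : φ x = φ y := hxy
        rw [h7, h7 y] at h8
        exact mul_right_cancel₀ h6 h8
      · intro y
        refine ⟨y * (φ 1)⁻¹, ?_⟩
        change φ (y * (φ 1)⁻¹) = y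
        rw [h7, mul_assoc, inv_mul_cancel₀ h6, mul_one]
    have h6 : R.H.map (tr (𝟙 W)) = inv (Functor.LaxMonoidal.ε R.H) ≫
        (Functor.LaxMonoidal.ε R.H ≫ R.H.map (tr (𝟙 W)) ≫ inv (Functor.LaxMonoidal.ε R.H)) ≫
        Functor.LaxMonoidal.ε R.H := by simp
    rw [h6]
    infer_instance
  · have h1 : IsZero (R.H.obj ((𝟙_ C)⟦i⟧)) := deg_unit i hi
    exact ⟨0, h1.eq_of_src _ _, h1.eq_of_src _ _⟩

/-- The unit is a direct summand of `W ⊗ Wᘁ`. -/
lemma unit_retract (hc : Conservative R) {W : C} (hW : R.Deg W 0) (hW0 : ¬ IsZero W) :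
    ∃ r : W ⊗ Wᘁ ⟶ 𝟙_ C, η_ W Wᘁ ≫ r = 𝟙 _ := by
  have h1 := isIso_tr hc hW hW0
  refine ⟨(β_ W Wᘁ).hom ≫ ε_ W Wᘁ ≫ inv (tr (𝟙 W)), ?_⟩
  have h2 : η_ W Wᘁ ≫ (β_ W Wᘁ).hom ≫ ε_ W Wᘁ = tr (𝟙 W) := by
    simp [tr]
  rw [reassoc_of% h2, IsIso.hom_inv_id]

lemma retract_of_unit_retract {W : C} {r : W ⊗ Wᘁ ⟶ 𝟙_ C} (hr : η_ W Wᘁ ≫ r = 𝟙 _) (X : C) :
    ∃ (i : X ⟶ Wᘁ ⊗ (W ⊗ X)) (s : Wᘁ ⊗ (W ⊗ X) ⟶ X), i ≫ s = 𝟙 _ := by
  let e : (W ⊗ Wᘁ) ⊗ X ≅ Wᘁ ⊗ (W ⊗ X) := whiskerRightIso (β_ W Wᘁ) X ≪≫ α_ _ _ _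
  refine ⟨(λ_ X).inv ≫ η_ W Wᘁ ▷ X ≫ e.hom, e.inv ≫ r ▷ X ≫ (λ_ X).hom, ?_⟩
  simp only [Category.assoc, Iso.hom_inv_id_assoc]
  rw [← comp_whiskerRight_assoc, hr]
  simp

lemma eq_zero_of_whisker (hc : Conservative R) {W : C} (hW : R.Deg W 0) (hW0 : ¬ IsZero W)
    {A B : C} (f : A ⟶ B) (hf : W ◁ f = 0) : f = 0 := by
  obtain ⟨r, hr⟩ := unit_retract hc hW hW0
  have h1 : (W ⊗ Wᘁ) ◁ f = 0 := by
    have h2 : (W ⊗ Wᘁ) ◁ f = (β_ W Wᘁ).hom ▷ A ≫ (Wᘁ ⊗ W) ◁ f ≫ (β_ W Wᘁ).inv ▷ B := by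
      rw [← whisker_exchange_assoc]
      simp
    rw [h2, tensor_whiskerLeft, hf]
    have h4 : (Wᘁ ◁ (0 : W ⊗ A ⟶ W ⊗ B)) = 0 := (tensorLeft Wᘁ).map_zero _ _
    rw [h4]
    simp
  have h2 : f = (λ_ A).inv ≫ (η_ W Wᘁ ▷ A) ≫ ((W ⊗ Wᘁ) ◁ f) ≫ (r ▷ B) ≫ (λ_ B).hom := by
    rw [whisker_exchange_assoc, ← comp_whiskerRight_assoc, hr]
    simp
  rw [h2, h1]
  simp

end Trace

end

section

variable {C : Type u} [Category.{v} C] [Preadditive C] [HasZeroObject C] [HasShift C ℤ]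
  [∀ n : ℤ, (shiftFunctor C n).Additive] [Pretriangulated C] [IsTriangulated C]
  [MonoidalCategory C] [SymmetricCategory C] [TensorTriangulated C] [MonoidalPreadditive C]
  [RightRigidCategory C] [IsIdempotentComplete C]
  {Λ : Type*} {E : Λ → Type w} [∀ l, Field (E l)] {R : ∀ l, Realisation C (E l)}

/-- Nonzero objects in degree zero. -/
def Aux (R : ∀ l, Realisation C (E l)) (W : C) : Prop := (∀ l, (R l).Deg W 0) ∧ ¬ IsZero W

lemma Aux.H_ne {W : C} (hW : Aux R W) {l : Λ} (hc : Conservative (R l)) :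
    ¬ IsZero ((R l).H.obj (W⟦(0 : ℤ)⟧)) := by
  intro h3
  apply hW.2
  apply hc
  intro j
  by_cases hj : j = 0
  · subst hj
    exact h3
  · exact hW.1 l j hj

lemma Aux.tensor {W W' : C} (hW : Aux R W) (hW' : Aux R W') {l₀ : Λ}
    (hc : Conservative (R l₀)) : Aux R (W ⊗ W') := by
  refine ⟨fun l => by simpa using (hW.1 l).tensor (hW'.1 l), fun h => ?_⟩
  have h1 := not_isZero_tensor (hW.H_ne hc) (hW'.H_ne hc)
  exact h1 ((R l₀).H.map_isZero (isZero_shift h _))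

lemma Aux.unit (R : ∀ l, Realisation C (E l)) (l₀ : Λ) : Aux R (𝟙_ C) :=
  ⟨fun _ => deg_unit, not_isZero_unit (R l₀)⟩

/-- The top cohomology of the objects is potentially motivic. -/
def PotTop (R : ∀ l, Realisation C (E l)) (l₀ : Λ) : Prop :=
  ∀ X : C, RLe (R l₀) 0 X → ∃ (W M : C) (f : W ⊗ X ⟶ M), (∀ l, (R l).Deg W 0) ∧ ¬ IsZero W ∧
    (∀ l, (R l).Deg M 0) ∧ IsIso ((R l₀).H.map f)

variable {l₀ : Λ}

lemma RLe.aux {W X : C} {n : ℤ} (hW : Aux R W) {l : Λ} (h : RLe (R l) n X) :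
    RLe (R l) n (W ⊗ X) := by
  have := (deg_iff.1 (hW.1 l)).1.tensor h
  rwa [zero_add] at this

lemma RGe.aux {W X : C} {n : ℤ} (hW : Aux R W) {l : Λ} (h : RGe (R l) n X) :
    RGe (R l) n (W ⊗ X) := by
  have := (deg_iff.1 (hW.1 l)).2.tensor h
  rwa [zero_add] at this

/-- The first step of the truncation. -/
lemma pot_step (ht : PotTop R l₀) {X : C} {b : ℤ} (hX : RLe (R l₀) b X) :
    ∃ (W X' M : C) (f : X' ⟶ W ⊗ X) (g : W ⊗ X ⟶ M) (h : M ⟶ X'⟦(1 : ℤ)⟧),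
      Triangle.mk f g h ∈ distTriang C ∧ Aux R W ∧ RLe (R l₀) (b - 1) X' ∧
        ∀ l, (R l).Deg M b := by
  obtain ⟨W, M, f, hW, hW0, hM, hf⟩ := ht (X⟦b⟧) (hX.shift b 0 (by omega))
  let c : (W ⊗ X)⟦b⟧ ≅ W ⊗ X⟦b⟧ := (rShift W X b).symm
  let e : (W ⊗ X)⟦b⟧⟦-b⟧ ≅ W ⊗ X := (shiftEquiv C b).unitIso.symm.app (W ⊗ X)
  obtain ⟨X', i, d, hT⟩ := distinguished_cocone_triangle₁ (e.inv ≫ (c.hom ≫ f)⟦-b⟧')
  refine ⟨W, X', M⟦-b⟧, i, _, d, hT, ⟨hW, hW0⟩, ?_, fun l => (hM l).shift (-b) b (by omega)⟩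
  have hf0 : IsIso ((R l₀).H.map (c.hom ≫ f)) := by
    rw [Functor.map_comp]
    infer_instance
  have hg : IsIso ((R l₀).H.map ((e.inv ≫ (c.hom ≫ f)⟦-b⟧')⟦b⟧')) := by
    rw [Functor.map_comp, Functor.map_comp]
    have h1 : IsIso ((R l₀).H.map ((c.hom ≫ f)⟦-b⟧'⟦b⟧')) := by
      have h2 : (c.hom ≫ f)⟦-b⟧'⟦b⟧' = ((shiftEquiv C b).counitIso.app ((W ⊗ X)⟦b⟧)).hom ≫
          (c.hom ≫ f) ≫ ((shiftEquiv C b).counitIso.app M).inv := by
        rw [← Category.assoc]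
        exact (Iso.eq_comp_inv _).2 ((shiftEquiv C b).counitIso.hom.naturality (c.hom ≫ f))
      rw [h2, Functor.map_comp, Functor.map_comp]
      infer_instance
    infer_instance
  have hWX : RLe (R l₀) b (W ⊗ X) := hX.aux ⟨hW, hW0⟩
  intro j hj
  have hMj : ∀ j, j ≠ b → IsZero ((R l₀).H.obj (M⟦-b⟧⟦j⟧)) :=
    (hM l₀).shift (-b) b (by omega)
  rcases lt_trichotomy j (b + 1) with h | h | h
  · obtain rfl : j = b := by omega
    apply hz1_of_iso (R l₀).H hT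
    · exact IsZero.epi (hMj _ (by omega)) _
    · infer_instance
  · subst h
    apply hz1_of_iso (R l₀).H hT
    · have : b + 1 - 1 = b := by omega
      rw [this]
      infer_instance
    · exact IsZero.mono (hWX _ (by omega)) _
  · exact hz1 (R l₀).H hT j (hWX _ (by omega)) (hMj _ (by omega))

lemma dist_of_iso_mid {X Y Y' Z : C} {f : X ⟶ Y} {g : Y ⟶ Z} {h : Z ⟶ X⟦(1 : ℤ)⟧}
    (hT : Triangle.mk f g h ∈ distTriang C) (e : Y ≅ Y') :
    Triangle.mk (f ≫ e.hom) (e.inv ≫ g) h ∈ distTriang C := by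
  refine isomorphic_distinguished _ hT _ ?_
  refine Triangle.isoMk _ _ (Iso.refl _) e.symm (Iso.refl _) ?_ ?_ ?_
  all_goals simp

lemma pot_trunc (hc : Conservative (R l₀)) (ht : PotTop R l₀) (n : ℤ) (k : ℕ) :
    ∀ (X : C) (b : ℤ), b - n ≤ k → RLe (R l₀) b X →
      ∃ (W A B : C) (f : A ⟶ W ⊗ X) (g : W ⊗ X ⟶ B) (h : B ⟶ A⟦(1 : ℤ)⟧),
        Triangle.mk f g h ∈ distTriang C ∧ Aux R W ∧ RLe (R l₀) n A ∧ RGe (R l₀) (n + 1) B := by
  induction k with
  | zero =>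
    intro X b hb hX
    refine ⟨𝟙_ C, 𝟙_ C ⊗ X, 0, 𝟙 _, 0, 0, contractible_distinguished _, Aux.unit R l₀,
      (RLe.aux (Aux.unit R l₀) hX).mono (by omega), RGe.of_isZero (isZero_zero C) _⟩
  | succ k ih =>
    intro X b hb hX
    by_cases hbn : b ≤ n
    · exact ⟨𝟙_ C, 𝟙_ C ⊗ X, 0, 𝟙 _, 0, 0, contractible_distinguished _, Aux.unit R l₀,
        (RLe.aux (Aux.unit R l₀) hX).mono (by omega), RGe.of_isZero (isZero_zero C) _⟩
    obtain ⟨W, X', M, f, g, h, hT, hW, hX', hM⟩ := pot_step ht hX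
    obtain ⟨W', A, B', f', g', h', hT', hW', hA, hB'⟩ :=
      ih X' (b - 1) (by push_cast at hb; omega) hX'
    have hT2 := dist_of_iso_mid (tensor_dist W' hT) (α_ W' W X).symm
    obtain ⟨B, p, d, hB⟩ := distinguished_cocone_triangle (f' ≫ W' ◁ f ≫ (α_ W' W X).symm.hom)
    have O := someOctahedron rfl hT' hT2 hB
    refine ⟨W' ⊗ W, A, B, _, p, d, hB, hW'.tensor hW hc, hA, RGe.mid O.mem hB' ?_⟩
    have h1 : RGe (R l₀) b M := (deg_iff.1 (hM l₀)).2
    exact (RGe.aux hW' h1).mono (by omega)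

/-- All objects are potentially built from motivic pieces. -/
lemma pot_all (hc : Conservative (R l₀)) (ht : PotTop R l₀) (l : Λ) (k : ℕ) :
    ∀ (X : C) (a b : ℤ), b - a < k → RLe (R l₀) b X → RGe (R l₀) a X →
      ∃ W, Aux R W ∧ RLe (R l) b (W ⊗ X) ∧ RGe (R l) a (W ⊗ X) := by
  induction k with
  | zero =>
    intro X a b hab h1 h2
    have hX : IsZero X := by
      apply hc
      intro i
      by_cases hi : i < a
      · exact h2 i hi
      · exact h1 i (by omega)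
    exact ⟨𝟙_ C, Aux.unit R l₀, RLe.of_isZero (isZero_tensor_right hX _) _,
      RGe.of_isZero (isZero_tensor_right hX _) _⟩
  | succ k ih =>
    intro X a b hab h1 h2
    by_cases hba : b < a
    · have hX : IsZero X := by
        apply hc
        intro i
        by_cases hi : i < a
        · exact h2 i hi
        · exact h1 i (by omega)
      exact ⟨𝟙_ C, Aux.unit R l₀, RLe.of_isZero (isZero_tensor_right hX _) _,
        RGe.of_isZero (isZero_tensor_right hX _) _⟩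
    obtain ⟨W, X', M, f, g, h, hT, hW, hX', hM⟩ := pot_step ht h1
    have hX'2 : RGe (R l₀) a X' := fun i hi =>
      hz1 (R l₀).H hT i (RGe.aux hW h2 i hi) (hM l₀ _ (by omega))
    obtain ⟨W', hW', h3, h4⟩ := ih X' a (b - 1) (by push_cast at hab; omega) hX' hX'2
    obtain ⟨h5, h6⟩ := deg_iff.1 (hM l)
    have hT2 := dist_of_iso_mid (tensor_dist W' hT) (α_ W' W X).symm
    exact ⟨W' ⊗ W, hW'.tensor hW hc, RLe.mid hT2 (h3.mono (by omega)) (RLe.aux hW' h5),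
      RGe.mid hT2 h4 ((RGe.aux hW' h6).mono (by omega))⟩

lemma bounds (R : ∀ l, Realisation C (E l)) (l₀ : Λ) (X : C) :
    ∃ N : ℕ, RLe (R l₀) N X ∧ RGe (R l₀) (-N) X := by
  obtain ⟨N, hN⟩ := (R l₀).bounded X
  exact ⟨N, fun i hi => hN i (by omega), fun i hi => hN i (by omega)⟩

variable [∀ l, CharZero (E l)]

/-- A nonzero object in degree zero has a nonzero realisation. -/
lemma Aux.H_ne' {W : C} (hW : Aux R W) (hc : Conservative (R l₀)) (l : Λ) :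
    ¬ IsZero ((R l).H.obj (W⟦(0 : ℤ)⟧)) := by
  intro h
  obtain ⟨r, hr⟩ := unit_retract hc (hW.1 l₀) hW.2
  have h1 : ∀ j : ℤ, IsZero ((R l).H.obj (W⟦j⟧)) := by
    intro j
    by_cases hj : j = 0
    · subst hj
      exact h
    · exact hW.1 l j hj
  have h2 : RLe (R l) (-1) (W ⊗ Wᘁ) := fun j _ => tensor_zero fun i => Or.inl (h1 i)
  have h3 := (h2.retract _ _ hr) 0 (by omega)
  exact not_isZero_H_unit (R l) (h3.of_iso ((R l).H.mapIso ((shiftFunctorZero C ℤ).symm.app _)))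

lemma pot_le (hc : Conservative (R l₀)) (ht : PotTop R l₀) (l : Λ) {X : C} {n : ℤ}
    (hX : RLe (R l₀) n X) : RLe (R l) n X := by
  obtain ⟨N, h1, h2⟩ := bounds R l₀ X
  obtain ⟨W, hW, h3, -⟩ := pot_all hc ht l (n + N + 1).toNat X (-N) n (by omega) hX h2
  intro i hi
  by_contra h4
  have h5 := not_isZero_tensor (hW.H_ne' hc l) h4
  rw [zero_add] at h5
  exact h5 (h3 i hi)

lemma pot_ge (hc : Conservative (R l₀)) (ht : PotTop R l₀) (l : Λ) {X : C} {n : ℤ}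
    (hX : RGe (R l₀) n X) : RGe (R l) n X := by
  obtain ⟨N, h1, h2⟩ := bounds R l₀ X
  obtain ⟨W, hW, -, h3⟩ := pot_all hc ht l (N - n + 1).toNat X n N (by omega) h1 hX
  intro i hi
  by_contra h4
  have h5 := not_isZero_tensor (hW.H_ne' hc l) h4
  rw [zero_add] at h5
  exact h5 (h3 i hi)

/-- Orthogonality. -/
lemma pot_orth (hc : Conservative (R l₀)) (ht : PotTop R l₀) {A B : C} (hA : RLe (R l₀) 0 A)
    (hB : RGe (R l₀) 1 B) (f : A ⟶ B) : f = 0 := by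
  obtain ⟨Z, g, h, hT⟩ := distinguished_cocone_triangle f
  obtain ⟨N, h1, h2⟩ := bounds R l₀ Z
  obtain ⟨W, A', B', u, v, w, hT', hW, hA', hB'⟩ :=
    pot_trunc hc ht (-1) (N + 1) Z N (by push_cast; omega) h1
  apply eq_zero_of_whisker hc (hW.1 l₀) hW.2
  exact orth_core hc (tensor_dist W hT) hT' hA' (by simpa using hB') (RLe.aux hW hA)
    (RGe.aux hW hB)

/-- The t-structure exists. -/
theorem exists_motivic (hc : Conservative (R l₀)) (ht : PotTop R l₀) :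
    ∃ t : TStructure C, IsMotivic t R := by
  have htr : ∀ (X : C), ∃ (A B : C) (f : A ⟶ X) (g : X ⟶ B) (h : B ⟶ A⟦(1 : ℤ)⟧),
      Triangle.mk f g h ∈ distTriang C ∧ RLe (R l₀) 0 A ∧ RGe (R l₀) 1 B := by
    intro X
    obtain ⟨N, h1, h2⟩ := bounds R l₀ X
    obtain ⟨W, A, B, f, g, h, hT, hW, hA, hB⟩ := pot_trunc hc ht 0 N X N (by omega) h1
    obtain ⟨r, hr⟩ := unit_retract hc (hW.1 l₀) hW.2
    obtain ⟨i, s, his⟩ := retract_of_unit_retract hr X
    have hWd : RLe (R l₀) 0 Wᘁ ∧ RGe (R l₀) 0 Wᘁ := deg_iff.1 (deg_dual (hW.1 l₀))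
    have hA' : RLe (R l₀) 0 (Wᘁ ⊗ A) := by simpa using hWd.1.tensor hA
    have hB' : RGe (R l₀) (0 + 1) (Wᘁ ⊗ B) := by simpa using hWd.2.tensor hB
    simpa using trunc_desc (n := 0) (fun h1 h2 f => pot_orth hc ht h1 (by simpa using h2) f) his
      (tensor_dist Wᘁ hT) hA' hB'
  refine ⟨tOf (fun h1 h2 f => pot_orth hc ht h1 h2 f) htr,
    ⟨fun X hX => ?_, fun X hX => ?_, fun X Y hX hY => ?_, fun X Y hX hY => ?_,
    fun l X hX => ?_, fun l X hX => ?_⟩⟩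
  · exact hc X fun i => hX (i - 1) i (by omega)
  · exact hc X fun i => hX (i + 1) i (by omega)
  · exact fun n hn => tensor_vanish_pos (fun i hi => hX i hi) (fun i hi => hY i hi) hn
  · exact fun n hn => tensor_vanish_neg (fun i hi => hX i hi) (fun i hi => hY i hi) hn
  · exact fun i hi => pot_le hc ht l hX i hi
  · exact fun i hi => pot_ge hc ht l hX i hi

/-- The criterion is necessary. -/
theorem potTop_of_motivic [Nonempty Λ]
    (hid : ∀ e : 𝟙_ C ⟶ 𝟙_ C, e ≫ e = e → e = 0 ∨ e = 𝟙 _)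
    {t : TStructure C} (h : IsMotivic t R) :
    ∃ l₀, Conservative (R l₀) ∧ PotTop R l₀ := by
  have ha := almost_of_motivic hid h
  obtain ⟨l₀, hc⟩ := ha.conservative
  refine ⟨l₀, hc, fun X hX => ?_⟩
  have he : ∀ l, TExact t (R l) := fun l => ⟨h.exact_le l, h.exact_ge l⟩
  have hX0 : t.IsLE X 0 := isLE_of hc (he l₀) hX
  obtain ⟨A, M, hA, hM, f, g, d, hT⟩ := t.exists_triangle X (-1) 0 (by omega)
  have hA1 : t.IsLE A (-1) := ⟨hA⟩
  have hM1 : t.IsGE M 0 := ⟨hM⟩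
  have hM0 : t.IsLE M 0 := isLE3 hT (t.isLE_of_le A (-1) (0 + 1)) hX0
  refine ⟨𝟙_ C, M, (λ_ X).hom ≫ g, fun l => deg_unit, not_isZero_unit (R l₀),
    fun l => (he l).deg ⟨hM0, hM1⟩, ?_⟩
  have h1 : IsIso ((R l₀).H.map g) := by
    apply isIso_of_shift_zero
    have a1 : Mono ((R l₀).H.map (g⟦(0 : ℤ)⟧')) :=
      hmono2 (R l₀).H hT 0 ((he l₀).isLE hA1 0 (by omega))
    have a2 : Epi ((R l₀).H.map (g⟦(0 : ℤ)⟧')) :=
      hepi2 (R l₀).H hT 0 ((he l₀).isLE hA1 _ (by omega))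
    exact isIso_of_mono_of_epi _
  rw [Functor.map_comp]
  infer_instance

end

end Pool.Agent.T6helper6.MT
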