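import Pool.Agent.T6helper6.MT.Final
import Pool.Agent.T6helper6.MT.Pot

/-!
# Ascent and descent of motivic t-structures along field extensions
-/

set_option autoImplicit false
set_option linter.unusedSectionVars false
set_option linter.unusedSimpArgs false
set_option backward.isDefEq.respectTransparency false
set_option backward.defeqAttrib.useBackward true

open CategoryTheory Limits MonoidalCategory Pretriangulated Triangulated ZeroObject

namespace Pool.Agent.T6helper6.MT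

open Pool.Agent.Y116.MT Pool.Agent.V1178.MT

universe v u w v' u'

section

variable {C : Type u} [Category.{v} C] [Preadditive C] [HasZeroObject C] [HasShift C ℤ]
  [∀ n : ℤ, (shiftFunctor C n).Additive] [Pretriangulated C]
  [MonoidalCategory C] [SymmetricCategory C] [TensorTriangulated C]
  {D : Type u'} [Category.{v'} D] [Preadditive D] [HasZeroObject D] [HasShift D ℤ]
  [∀ n : ℤ, (shiftFunctor D n).Additive] [Pretriangulated D]
  [MonoidalCategory D] [SymmetricCategory D] [TensorTriangulated D]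
  {Λ : Type*} {E : Λ → Type w} [∀ l, Field (E l)]
  {R : ∀ l, Realisation C (E l)} {R' : ∀ l, Realisation D (E l)}
  (F : C ⥤ D) [F.CommShift ℤ]

/-- Every exact triangle `A ⟶ F X ⟶ B` of `D` specialises to an exact triangle
`A' ⟶ W ⊗ X ⟶ B'` of `C`, where `W` is a nonzero object in degree zero, `H^n(A') = 0` for all `n`
with `H^n(A) = 0` and `H^n(B') = 0` for all `n` with `H^n(B) = 0`. -/
def Specialises {E₀ : Type w} [Field E₀] (F : C ⥤ D) (R : Realisation C E₀)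
    (R' : Realisation D E₀) : Prop :=
  ∀ (X : C) (A B : D) (f : A ⟶ F.obj X) (g : F.obj X ⟶ B) (h : B ⟶ A⟦(1 : ℤ)⟧),
    Triangle.mk f g h ∈ distTriang D →
      ∃ (W A' B' : C) (f' : A' ⟶ W ⊗ X) (g' : W ⊗ X ⟶ B') (h' : B' ⟶ A'⟦(1 : ℤ)⟧),
        Triangle.mk f' g' h' ∈ distTriang C ∧ ¬ IsZero W ∧
        (∀ n : ℤ, n ≠ 0 → IsZero (R.H.obj (W⟦n⟧))) ∧
        (∀ n : ℤ, IsZero (R'.H.obj (A⟦n⟧)) → IsZero (R.H.obj (A'⟦n⟧))) ∧
        ∀ n : ℤ, IsZero (R'.H.obj (B⟦n⟧)) → IsZero (R.H.obj (B'⟦n⟧))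

lemma rle_map (l : Λ) (hF : ∀ X, IsZero ((R l).H.obj X) ↔ IsZero ((R' l).H.obj (F.obj X)))
    (n : ℤ) (X : C) : RLe (R l) n X ↔ RLe (R' l) n (F.obj X) := by
  have h : ∀ i : ℤ, IsZero ((R l).H.obj (X⟦i⟧)) ↔ IsZero ((R' l).H.obj ((F.obj X)⟦i⟧)) := by
    intro i
    rw [hF]
    exact ((R' l).H.mapIso ((F.commShiftIso i).app X)).isZero_iff
  exact ⟨fun h1 i hi => (h i).1 (h1 i hi), fun h1 i hi => (h i).2 (h1 i hi)⟩

lemma rge_map (l : Λ) (hF : ∀ X, IsZero ((R l).H.obj X) ↔ IsZero ((R' l).H.obj (F.obj X)))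
    (n : ℤ) (X : C) : RGe (R l) n X ↔ RGe (R' l) n (F.obj X) := by
  have h : ∀ i : ℤ, IsZero ((R l).H.obj (X⟦i⟧)) ↔ IsZero ((R' l).H.obj ((F.obj X)⟦i⟧)) := by
    intro i
    rw [hF]
    exact ((R' l).H.mapIso ((F.commShiftIso i).app X)).isZero_iff
  exact ⟨fun h1 i hi => (h i).1 (h1 i hi), fun h1 i hi => (h i).2 (h1 i hi)⟩

end

section

variable {C : Type u} [Category.{v} C] [Preadditive C] [HasZeroObject C] [HasShift C ℤ]
  [∀ n : ℤ, (shiftFunctor C n).Additive] [Pretriangulated C] [IsTriangulated C]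
  [MonoidalCategory C] [SymmetricCategory C] [TensorTriangulated C] [MonoidalPreadditive C]
  [RightRigidCategory C] [IsIdempotentComplete C]
  {D : Type u'} [Category.{v'} D] [Preadditive D] [HasZeroObject D] [HasShift D ℤ]
  [∀ n : ℤ, (shiftFunctor D n).Additive] [Pretriangulated D] [IsTriangulated D]
  [MonoidalCategory D] [SymmetricCategory D] [TensorTriangulated D] [MonoidalPreadditive D]
  [RightRigidCategory D]
  {Λ : Type*} {E : Λ → Type w} [∀ l, Field (E l)]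
  {R : ∀ l, Realisation C (E l)} {R' : ∀ l, Realisation D (E l)}
  {F : C ⥤ D} [F.CommShift ℤ]

/-- Descent. -/
theorem motivic_descent [∀ l, CharZero (E l)]
    (hidD : ∀ e : 𝟙_ D ⟶ 𝟙_ D, e ≫ e = e → e = 0 ∨ e = 𝟙 _)
    (hF : ∀ l X, IsZero ((R l).H.obj X) ↔ IsZero ((R' l).H.obj (F.obj X)))
    (hF0 : ∀ X, IsZero (F.obj X) → IsZero X) (l₀ : Λ) (hs : Specialises F (R l₀) (R' l₀))
    {t' : TStructure D} (h : IsMotivic t' R') : ∃ t : TStructure C, IsMotivic t R := by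
  have ht' : TensorCompat t' := ⟨h.tensor_le, h.tensor_ge⟩
  have hu' : Hrt t' (𝟙_ D) := unit_hrt ht' h.nondeg_le h.nondeg_ge
  have he' : ∀ l, TExact t' (R' l) := fun l => ⟨h.exact_le l, h.exact_ge l⟩
  have hc' : Conservative (R' l₀) := fun X hX =>
    conservative ht' (he' l₀) hu' hidD h.nondeg_le h.nondeg_ge hX
  have hc : Conservative (R l₀) := by
    intro X hX
    apply hF0
    apply hc'
    intro i
    exact (((R' l₀).H.mapIso ((F.commShiftIso i).app X)).isZero_iff).1 ((hF l₀ _).1 (hX i))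
  have hpot : PotTop (fun _ : Unit => R l₀) () := by
    intro X hX
    have hX' : RLe (R' l₀) 0 (F.obj X) := (rle_map F l₀ (hF l₀) 0 X).1 hX
    have hX0 : t'.IsLE (F.obj X) 0 := isLE_of hc' (he' l₀) hX'
    obtain ⟨A, M, hA, hM, f, g, d, hT⟩ := t'.exists_triangle (F.obj X) (-1) 0 (by omega)
    have hA1 : t'.IsLE A (-1) := ⟨hA⟩
    have hM1 : t'.IsGE M 0 := ⟨hM⟩
    have hM0 : t'.IsLE M 0 := isLE3 hT (t'.isLE_of_le A (-1) (0 + 1)) hX0
    have hMd : (R' l₀).Deg M 0 := (he' l₀).deg ⟨hM0, hM1⟩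
    obtain ⟨W, A', B', f', g', h', hT', hW0, hW, hA', hB'⟩ := hs X A M f g d hT
    refine ⟨W, B', g', fun _ => hW, hW0, fun _ i hi => hB' i (hMd i hi), ?_⟩
    apply isIso_of_shift_zero
    have a1 : Mono ((R l₀).H.map (g'⟦(0 : ℤ)⟧')) :=
      hmono2 (R l₀).H hT' 0 (hA' _ ((he' l₀).isLE hA1 0 (by omega)))
    have a2 : Epi ((R l₀).H.map (g'⟦(0 : ℤ)⟧')) :=
      hepi2 (R l₀).H hT' 0 (hA' _ ((he' l₀).isLE hA1 _ (by omega)))
    exact isIso_of_mono_of_epi _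
  obtain ⟨t, ht⟩ := exists_motivic (R := fun _ : Unit => R l₀) (l₀ := ()) hc hpot
  refine ⟨t, ⟨ht.nondeg_le, ht.nondeg_ge, ht.tensor_le, ht.tensor_ge, fun l X hX => ?_,
    fun l X hX => ?_⟩⟩
  · have h1 : RLe (R' l₀) 0 (F.obj X) := (rle_map F l₀ (hF l₀) 0 X).1 (ht.exact_le () X hX)
    have h2 : t'.IsLE (F.obj X) 0 := isLE_of hc' (he' l₀) h1
    exact (rle_map F l (hF l) 0 X).2 (h.exact_le l _ h2.le)
  · have h1 : RGe (R' l₀) 0 (F.obj X) := (rge_map F l₀ (hF l₀) 0 X).1 (ht.exact_ge () X hX)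
    have h2 : t'.IsGE (F.obj X) 0 := isGE_of hc' (he' l₀) h1
    exact (rge_map F l (hF l) 0 X).2 (h.exact_ge l _ h2.ge)

end

section

variable {ι : Type*} {C : ι → Type u} [∀ i, Category.{v} (C i)] [∀ i, Preadditive (C i)]
  [∀ i, HasZeroObject (C i)] [∀ i, HasShift (C i) ℤ]
  [∀ i, ∀ n : ℤ, (shiftFunctor (C i) n).Additive] [∀ i, Pretriangulated (C i)]
  [∀ i, IsTriangulated (C i)]
  [∀ i, MonoidalCategory (C i)] [∀ i, SymmetricCategory (C i)] [∀ i, TensorTriangulated (C i)]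
  [∀ i, MonoidalPreadditive (C i)] [∀ i, RightRigidCategory (C i)]
  {D : Type u'} [Category.{v'} D] [Preadditive D] [HasZeroObject D] [HasShift D ℤ]
  [∀ n : ℤ, (shiftFunctor D n).Additive] [Pretriangulated D] [IsTriangulated D]
  [MonoidalCategory D] [SymmetricCategory D] [TensorTriangulated D] [MonoidalPreadditive D]
  {Λ : Type*} {E : Λ → Type w} [∀ l, Field (E l)]
  {R : ∀ i l, Realisation (C i) (E l)} {R' : ∀ l, Realisation D (E l)}
  {F : ∀ i, C i ⥤ D} [∀ i, (F i).CommShift ℤ] [∀ i, (F i).IsTriangulated]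

/-- Ascent. -/
theorem motivic_ascent [Nonempty Λ]
    (hid : ∀ i, ∀ e : 𝟙_ (C i) ⟶ 𝟙_ (C i), e ≫ e = e → e = 0 ∨ e = 𝟙 _)
    (hF : ∀ i l X, IsZero ((R i l).H.obj X) ↔ IsZero ((R' l).H.obj ((F i).obj X)))
    (hcolim : ∀ (A B : D) (f : A ⟶ B), ∃ (i : ι) (A₀ B₀ : C i) (f₀ : A₀ ⟶ B₀)
      (a : A ≅ (F i).obj A₀) (b : B ≅ (F i).obj B₀), f ≫ b.hom = a.hom ≫ (F i).map f₀)
    (h : ∀ i, ∃ t : TStructure (C i), IsMotivic t (R i)) : ∃ t : TStructure D, IsMotivic t R' := by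
  choose t h using h
  have ht : ∀ i, TensorCompat (t i) := fun i => ⟨(h i).tensor_le, (h i).tensor_ge⟩
  have hu : ∀ i, Hrt (t i) (𝟙_ (C i)) := fun i => unit_hrt (ht i) (h i).nondeg_le (h i).nondeg_ge
  have he : ∀ i l, TExact (t i) (R i l) := fun i l => ⟨(h i).exact_le l, (h i).exact_ge l⟩
  obtain ⟨l₀⟩ := ‹Nonempty Λ›
  have hc : ∀ i, Conservative (R i l₀) := fun i X hX =>
    conservative (ht i) (he i l₀) (hu i) (hid i) (h i).nondeg_le (h i).nondeg_ge hX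
  have hobj : ∀ X : D, ∃ (i : ι) (X₀ : C i), Nonempty (X ≅ (F i).obj X₀) := by
    intro X
    obtain ⟨i, A₀, B₀, f₀, a, b, -⟩ := hcolim X X (𝟙 X)
    exact ⟨i, A₀, ⟨a⟩⟩
  have hc' : Conservative (R' l₀) := by
    intro X hX
    obtain ⟨i, X₀, ⟨a⟩⟩ := hobj X
    have h1 : IsZero X₀ := by
      apply hc i
      intro j
      rw [hF i l₀]
      refine (((R' l₀).H.mapIso (((F i).commShiftIso j).app X₀)).isZero_iff).2 ?_
      exact (hX j).of_iso ((R' l₀).H.mapIso ((shiftFunctor D j).mapIso a.symm))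
    exact ((F i).map_isZero h1).of_iso a
  have horth : ∀ {A B : D}, RLe (R' l₀) 0 A → RGe (R' l₀) 1 B → ∀ f : A ⟶ B, f = 0 := by
    intro A B hA hB f
    obtain ⟨i, A₀, B₀, f₀, a, b, hab⟩ := hcolim A B f
    have h1 : (t i).IsLE A₀ 0 := isLE_of (hc i) (he i l₀)
      ((rle_map (R := fun l => R i l) (F i) l₀ (hF i l₀) 0 A₀).2 (hA.iso a))
    have h2 : (t i).IsGE B₀ 1 := isGE_of (hc i) (he i l₀)
      ((rge_map (R := fun l => R i l) (F i) l₀ (hF i l₀) 1 B₀).2 (hB.iso b))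
    have h3 : f₀ = 0 := (t i).zero_of_isLE_of_isGE f₀ 0 1 (by omega) h1 h2
    rw [← cancel_mono b.hom, hab, h3, Functor.map_zero, comp_zero, zero_comp]
  have htr : ∀ (X : D), ∃ (A B : D) (f : A ⟶ X) (g : X ⟶ B) (h : B ⟶ A⟦(1 : ℤ)⟧),
      Triangle.mk f g h ∈ distTriang D ∧ RLe (R' l₀) 0 A ∧ RGe (R' l₀) 1 B := by
    intro X
    obtain ⟨i, X₀, ⟨a⟩⟩ := hobj X
    obtain ⟨A, B, hA, hB, f, g, d, hT⟩ := (t i).exists_triangle X₀ 0 1 rfl
    have hA1 : (t i).IsLE A 0 := ⟨hA⟩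
    have hB1 : (t i).IsGE B 1 := ⟨hB⟩
    refine ⟨(F i).obj A, (F i).obj B, _, _, _, dist_iso_mid ((F i).map_distinguished _ hT) a.symm,
      ?_, ?_⟩
    · exact (rle_map (R := fun l => R i l) (F i) l₀ (hF i l₀) 0 A).1
        (fun j hj => (he i l₀).isLE hA1 j hj)
    · exact (rge_map (R := fun l => R i l) (F i) l₀ (hF i l₀) 1 B).1
        (fun j hj => (he i l₀).isGE hB1 j hj)
  refine ⟨tOf horth htr, ⟨fun X hX => ?_, fun X hX => ?_, fun X Y hX hY => ?_,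
    fun X Y hX hY => ?_, fun l X hX => ?_, fun l X hX => ?_⟩⟩
  · exact hc' X fun i => hX (i - 1) i (by omega)
  · exact hc' X fun i => hX (i + 1) i (by omega)
  · have h1 := RLe.tensor (a := 0) (b := 0) hX hY
    rwa [add_zero] at h1
  · have h1 := RGe.tensor (a := 0) (b := 0) hX hY
    rwa [add_zero] at h1
  · obtain ⟨i, X₀, ⟨a⟩⟩ := hobj X
    have h1 : (t i).IsLE X₀ 0 := isLE_of (hc i) (he i l₀)
      ((rle_map (R := fun l => R i l) (F i) l₀ (hF i l₀) 0 X₀).2 (RLe.iso hX a))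
    exact ((rle_map (R := fun l => R i l) (F i) l (hF i l) 0 X₀).1
      ((h i).exact_le l _ h1.le)).iso a.symm
  · obtain ⟨i, X₀, ⟨a⟩⟩ := hobj X
    have h1 : (t i).IsGE X₀ 0 := isGE_of (hc i) (he i l₀)
      ((rge_map (R := fun l => R i l) (F i) l₀ (hF i l₀) 0 X₀).2 (RGe.iso hX a))
    exact ((rge_map (R := fun l => R i l) (F i) l (hF i l) 0 X₀).1
      ((h i).exact_ge l _ h1.ge)).iso a.symm

end

end Pool.Agent.T6helper6.MT
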