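import Pool.Agent.T6helper6.MT.Fil

/-!
# Cohomology objects of a t-structure and the hard Lefschetz theorem
-/

set_option autoImplicit false
set_option linter.unusedSectionVars false
set_option linter.unusedSimpArgs false
set_option backward.isDefEq.respectTransparency false
set_option backward.defeqAttrib.useBackward true

open CategoryTheory Limits MonoidalCategory Pretriangulated Triangulated TensorProduct ZeroObject
namespace Pool.Agent.T6helper6.MT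
open Pool.Agent.Y116.MT Pool.Agent.V1178.MT
universe v u w

section

variable {C : Type u} [Category.{v} C] [Preadditive C] [HasZeroObject C] [HasShift C ℤ]
  [∀ n : ℤ, (shiftFunctor C n).Additive] [Pretriangulated C]

/-- `K` is the `n`-th cohomology object of `X`. -/
structure IsH (t : TStructure C) (n : ℤ) (X K : C) : Prop where
  ex : ∃ (A B A' : C) (f : A ⟶ X) (g : X ⟶ B) (h : B ⟶ A⟦(1 : ℤ)⟧) (f' : A' ⟶ A) (g' : A ⟶ K)
    (h' : K ⟶ A'⟦(1 : ℤ)⟧), Triangle.mk f g h ∈ distTriang C ∧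
      Triangle.mk f' g' h' ∈ distTriang C ∧ t.IsLE A n ∧ t.IsGE B (n + 1) ∧ t.IsLE A' (n - 1) ∧
        t.IsLE K n ∧ t.IsGE K n

variable {t : TStructure C}

lemma exists_isH (X : C) (n : ℤ) : ∃ K, IsH t n X K := by
  obtain ⟨A, B, hA, hB, f, g, h, hT⟩ := t.exists_triangle X n (n + 1) rfl
  obtain ⟨A', K, hA', hK, f', g', h', hT'⟩ := t.exists_triangle A (n - 1) n (by omega)
  have h1 : t.IsLE A' (n - 1) := ⟨hA'⟩
  have h2 : t.IsLE A n := ⟨hA⟩
  refine ⟨K, ⟨A, B, A', f, g, h, f', g', h', hT, hT', h2, ⟨hB⟩, h1, ?_, ⟨hK⟩⟩⟩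
  have h3 : t.IsLE (A'⟦(1 : ℤ)⟧) (n - 2) := t.isLE_shift A' (n - 1) 1 (n - 2)
  have h4 : t.IsLE (A'⟦(1 : ℤ)⟧) n := @TStructure.isLE_of_le _ _ _ _ _ _ _ t _ (n - 2) n (by omega) h3
  exact t.isLE₂ _ (rotD hT') n h2 h4

/-- The `n`-th cohomology object. -/
noncomputable def Hob (t : TStructure C) (X : C) (n : ℤ) : C := (exists_isH (t := t) X n).choose

lemma isH_hob (X : C) (n : ℤ) : IsH t n X (Hob t X n) := (exists_isH (t := t) X n).choose_spec

end

section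

variable {C : Type u} [Category.{v} C] [Preadditive C] [HasZeroObject C] [HasShift C ℤ]
  [∀ n : ℤ, (shiftFunctor C n).Additive] [Pretriangulated C] [MonoidalCategory C]
  [SymmetricCategory C] [TensorTriangulated C] [MonoidalPreadditive C] [RightRigidCategory C]
  [IsTriangulated C]
  {E : Type w} [Field E] {R : Realisation C E} {E' : Type w} [Field E'] {R' : Realisation C E'}
  {t : TStructure C}

lemma IsH.cn {n : ℤ} {X K : C} (h : IsH t n X K) : Cn t n K := by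
  obtain ⟨A, B, A', f, g, d, f', g', d', hT, hT', h1, h2, h3, h4, h5⟩ := h.ex
  exact ⟨h4, h5⟩

lemma IsH.iso {n : ℤ} {X Y K : C} (h : IsH t n X K) (e : X ≅ Y) : IsH t n Y K := by
  obtain ⟨A, B, A', f, g, d, f', g', d', hT, hT', h1⟩ := h.ex
  exact ⟨A, B, A', _, _, _, f', g', d', dist_iso_mid hT e, hT', h1⟩

section Map

variable (he : TExact t R)

include he

lemma isIso_trunc {A X B : C} {n : ℤ} {f : A ⟶ X} {g : X ⟶ B} {d : B ⟶ A⟦(1 : ℤ)⟧}
    (hT : Triangle.mk f g d ∈ distTriang C) (hB : t.IsGE B (n + 1)) :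
    IsIso (R.H.map (f⟦n⟧')) := by
  have h1 := hmono1 R.H hT n (he.isGE hB _ (by omega))
  have h2 := hepi1 R.H hT n (he.isGE hB _ (by omega))
  exact isIso_of_mono_of_epi _

lemma isIso_trunc' {A X B : C} {n : ℤ} {f : A ⟶ X} {g : X ⟶ B} {d : B ⟶ A⟦(1 : ℤ)⟧}
    (hT : Triangle.mk f g d ∈ distTriang C) (hA : t.IsLE A (n - 1)) :
    IsIso (R.H.map (g⟦n⟧')) := by
  have h1 := hmono2 R.H hT n (he.isLE hA _ (by omega))
  have h2 := hepi2 R.H hT n (he.isLE hA _ (by omega))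
  exact isIso_of_mono_of_epi _

lemma IsH.hd {n : ℤ} {X K : C} (h : IsH t n X K) : hd R K n = hd R X n := by
  obtain ⟨A, B, A', f, g, d, f', g', d', hT, hT', h1, h2, h3, h4, h5⟩ := h.ex
  have e1 := isIso_trunc he hT h2
  have e2 := isIso_trunc' he hT' h3
  exact (finrank_iso (@asIso _ _ _ _ _ e2)).symm.trans (finrank_iso (@asIso _ _ _ _ _ e1))

/-- Functoriality. -/
lemma IsH.map (hc : Conservative R) {n : ℤ} {X Y K K' : C} (h : IsH t n X K) (h' : IsH t n Y K')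
    (L : X ⟶ Y) (hL : IsIso (R.H.map (L⟦n⟧'))) : Nonempty (K ≅ K') := by
  obtain ⟨A, B, A', f, g, d, f', g', d', hT, hT', h1, h2, h3, h4, h5⟩ := h.ex
  obtain ⟨A1, B1, A1', f1, g1, d1, f1', g1', d1', hT1, hT1', k1, k2, k3, k4, k5⟩ := h'.ex
  obtain ⟨φ, hφ⟩ := ce2 hT1 (f ≫ L) (t.zero_of_isLE_of_isGE _ n (n + 1) (by omega) h1 k2)
  obtain ⟨ψ, hψ⟩ := ye2 hT' (φ ≫ g1')
    (t.zero_of_isLE_of_isGE _ (n - 1) n (by omega) h3 k5)
  have e1 := isIso_trunc he hT h2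
  have e2 := isIso_trunc' he hT' h3
  have e3 := isIso_trunc he hT1 k2
  have e4 := isIso_trunc' he hT1' k3
  have hφ1 : IsIso (R.H.map (φ⟦n⟧')) := by
    have h6 : R.H.map (φ⟦n⟧') ≫ R.H.map (f1⟦n⟧') = R.H.map (f⟦n⟧') ≫ R.H.map (L⟦n⟧') := by
      rw [← Functor.map_comp, ← Functor.map_comp, ← hφ, Functor.map_comp, Functor.map_comp]
    have h7 : IsIso (R.H.map (φ⟦n⟧') ≫ R.H.map (f1⟦n⟧')) := by
      rw [h6]
      infer_instance
    exact IsIso.of_isIso_comp_right _ (R.H.map (f1⟦n⟧'))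
  have hψ1 : IsIso (R.H.map (ψ⟦n⟧')) := by
    have h6 : R.H.map (g'⟦n⟧') ≫ R.H.map (ψ⟦n⟧') = R.H.map (φ⟦n⟧') ≫ R.H.map (g1'⟦n⟧') := by
      rw [← Functor.map_comp, ← Functor.map_comp, ← hψ, Functor.map_comp, Functor.map_comp]
    have h7 : IsIso (R.H.map (g'⟦n⟧') ≫ R.H.map (ψ⟦n⟧')) := by
      rw [h6]
      infer_instance
    exact IsIso.of_isIso_comp_left (R.H.map (g'⟦n⟧')) _
  have hψ2 : IsIso ψ := by
    apply isIso_of_conservative hc
    intro i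
    by_cases hi : i = n
    · subst hi
      exact hψ1
    · have z1 : IsZero (R.H.obj (K⟦i⟧)) := Cn.deg he ⟨h4, h5⟩ i hi
      have z2 : IsZero (R.H.obj (K'⟦i⟧)) := Cn.deg he ⟨k4, k5⟩ i hi
      exact ⟨0, z1.eq_of_src _ _, z2.eq_of_src _ _⟩
  exact ⟨asIso ψ⟩

lemma IsH.unique (hc : Conservative R) {n : ℤ} {X K K' : C} (h : IsH t n X K)
    (h' : IsH t n X K') : Nonempty (K ≅ K') := by
  apply h.map he hc h' (𝟙 X)
  rw [CategoryTheory.Functor.map_id, CategoryTheory.Functor.map_id]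
  infer_instance

/-- The cohomology objects of a truncation. -/
lemma IsH.trunc (hc : Conservative R) {n a : ℤ} {X A B K : C} {f : A ⟶ X} {g : X ⟶ B}
    {d : B ⟶ A⟦(1 : ℤ)⟧} (hT : Triangle.mk f g d ∈ distTriang C) (hA : t.IsLE A a)
    (hn : a + 1 ≤ n) (h : IsH t n X K) {K' : C} (h' : IsH t n B K') : Nonempty (K ≅ K') :=
  h.map he hc h' g (isIso_trunc' he hT
    (@TStructure.isLE_of_le _ _ _ _ _ _ _ t _ a (n - 1) (by omega) hA))

end Map

lemma isH_self {n : ℤ} {K : C} (h : Cn t n K) : IsH t n K K :=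
  ⟨K, 0, 0, 𝟙 K, 0, 0, 0, 𝟙 K, 0, contractible_distinguished K,
    contractible_distinguished₁ K, h.1, t.isGE_of_isZero (isZero_zero C) _,
    t.isLE_of_isZero (isZero_zero C) _, h.1, h.2⟩

lemma isH_low {n : ℤ} {X A B : C} {f : A ⟶ X} {g : X ⟶ B} {d : B ⟶ A⟦(1 : ℤ)⟧}
    (hT : Triangle.mk f g d ∈ distTriang C) (hA : Cn t n A) (hB : t.IsGE B (n + 1)) :
    IsH t n X A :=
  ⟨A, B, 0, f, g, d, 0, 𝟙 A, 0, hT, contractible_distinguished₁ A, hA.1, hB,
    t.isLE_of_isZero (isZero_zero C) _, hA.1, hA.2⟩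

/-- Twists. -/
lemma IsH.twist_one (ht : TensorCompat t) {T : C} (hT : Cn t (-2) T) {n : ℤ} {X K : C}
    (h : IsH t (n + 2) X K) : IsH t n (X ⊗ T) (T ⊗ K) := by
  obtain ⟨A, B, A', f, g, d, f', g', d', hT1, hT1', h1, h2, h3, h4, h5⟩ := h.ex
  refine (IsH.iso (X := T ⊗ X) ?_ (β_ T X))
  have a1 := ht.isLE hT.1 h1
  have a2 := ht.isGE hT.2 h2
  have a3 := ht.isLE hT.1 h3
  have a4 := ht.isLE hT.1 h4
  have a5 := ht.isGE hT.2 h5
  rw [show (-2 : ℤ) + (n + 2) = n by ring] at a1 a4 a5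
  rw [show (-2 : ℤ) + (n + 2 + 1) = n + 1 by ring] at a2
  rw [show (-2 : ℤ) + (n + 2 - 1) = n - 1 by ring] at a3
  exact ⟨_, _, _, _, _, _, _, _, _, tensor_dist T hT1, tensor_dist T hT1', a1, a2, a3, a4, a5⟩

end

end Pool.Agent.T6helper6.MT
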