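import Pool.Agent.Y116.MT.HomNum

/-!
# The antisymmetrizer of a twist by an object with trivial symmetry
-/

set_option autoImplicit false
set_option linter.unusedSectionVars false
set_option linter.unusedSimpArgs false
set_option backward.isDefEq.respectTransparency false
set_option backward.defeqAttrib.useBackward true

open CategoryTheory Limits MonoidalCategory Pretriangulated Triangulated
namespace Pool.Agent.T6helper6.MT
open Pool.Agent.Y116.MT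
universe v u w
section
variable {C : Type u} [Category.{v} C] [MonoidalCategory C] [SymmetricCategory C]

lemma tensorμ_braiding (X₁ X₂ Y₁ Y₂ : C) :
    tensorμ X₁ X₂ Y₁ Y₂ ≫ ((β_ X₁ Y₁).hom ⊗ₘ (β_ X₂ Y₂).hom) =
      (β_ (X₁ ⊗ X₂) (Y₁ ⊗ Y₂)).hom ≫ tensorμ Y₁ Y₂ X₁ X₂ := by
  simp only [tensorμ, BraidedCategory.braiding_tensor_right_hom,
    BraidedCategory.braiding_tensor_left_hom, MonoidalCategory.tensorHom_def]
  calc
    _ = 𝟙 _ ⊗≫ X₁ ◁ (β_ X₂ Y₁).hom ▷ Y₂ ⊗≫ ((β_ X₁ Y₁).hom ▷ (X₂ ⊗ Y₂) ⊗≫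
        (Y₁ ⊗ X₁) ◁ (β_ X₂ Y₂).hom) ⊗≫ Y₁ ◁ (𝟙 (X₁ ⊗ Y₂)) ▷ X₂ ⊗≫ 𝟙 _ := by monoidal
    _ = 𝟙 _ ⊗≫ X₁ ◁ (β_ X₂ Y₁).hom ▷ Y₂ ⊗≫ ((β_ X₁ Y₁).hom ▷ (X₂ ⊗ Y₂) ⊗≫
        (Y₁ ⊗ X₁) ◁ (β_ X₂ Y₂).hom) ⊗≫ Y₁ ◁ ((β_ X₁ Y₂).hom ≫ (β_ Y₂ X₁).hom) ▷ X₂ ⊗≫ 𝟙 _ := by
      rw [SymmetricCategory.symmetry]
    _ = _ := by monoidal

/-- The comparison of the powers of a tensor product with the tensor product of the powers. -/
def kapT (X X' Z T : C) : ∀ n : ℕ, pw (X ⊗ X') (Z ⊗ T) n ≅ pw X Z n ⊗ pw X' T n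
  | 0 => Iso.refl _
  | n + 1 => whiskerRightIso (kapT X X' Z T n) (Z ⊗ T) ≪≫
      { hom := tensorμ _ _ _ _
        inv := tensorδ _ _ _ _ }

lemma exch_tensor (W W' Z T P Q : C) :
    (exch (W ⊗ W') (Z ⊗ T) (P ⊗ Q)).hom ≫ tensorμ W W' P Q ▷ (Z ⊗ T) ≫
        tensorμ (W ⊗ P) (W' ⊗ Q) Z T =
      tensorμ W W' Z T ▷ (P ⊗ Q) ≫ tensorμ (W ⊗ Z) (W' ⊗ T) P Q ≫
        ((exch W Z P).hom ⊗ₘ (exch W' T Q).hom) := by
  simp only [exch, Iso.trans_hom, whiskerLeftIso_hom, Iso.symm_hom, Category.assoc]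
  have h1 := tensor_associativity W W' Z T P Q
  have h2 := tensor_associativity W W' P Q Z T
  have h3 : ((α_ W Z P).hom ≫ W ◁ (β_ Z P).hom ≫ (α_ W P Z).inv ⊗ₘ
      (α_ W' T Q).hom ≫ W' ◁ (β_ T Q).hom ≫ (α_ W' Q T).inv) =
      ((α_ W Z P).hom ⊗ₘ (α_ W' T Q).hom) ≫ (W ◁ (β_ Z P).hom ⊗ₘ W' ◁ (β_ T Q).hom) ≫
        ((α_ W P Z).inv ⊗ₘ (α_ W' Q T).inv) := by
    simp only [← tensorHom_comp_tensorHom]
  have h4 : ((α_ W P Z).hom ⊗ₘ (α_ W' Q T).hom) ≫ ((α_ W P Z).inv ⊗ₘ (α_ W' Q T).inv) = 𝟙 _ := by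
    rw [tensorHom_comp_tensorHom]
    simp
  have h5 : tensorμ W W' P Q ▷ (Z ⊗ T) ≫ tensorμ (W ⊗ P) (W' ⊗ Q) Z T =
      (α_ (W ⊗ W') (P ⊗ Q) (Z ⊗ T)).hom ≫ (W ⊗ W') ◁ tensorμ P Q Z T ≫
        tensorμ W W' (P ⊗ Z) (Q ⊗ T) ≫ ((α_ W P Z).inv ⊗ₘ (α_ W' Q T).inv) := by
    rw [← reassoc_of% h2, h4, Category.comp_id]
  rw [h3, reassoc_of% h1, ← tensorμ_natural_right_assoc, ← MonoidalCategory.whiskerLeft_comp_assoc,
    tensorμ_braiding, MonoidalCategory.whiskerLeft_comp_assoc, h5, Iso.inv_hom_id_assoc]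

attribute [reassoc] exch_tensor

lemma mv_tensor (X X' Z T : C) (n : ℕ) : ∀ i : Fin (n + 1),
    mv (X ⊗ X') (Z ⊗ T) n i ≫ (kapT X X' Z T (n + 1)).hom =
      (kapT X X' Z T (n + 1)).hom ≫ (mv X Z n i ⊗ₘ mv X' T n i) := by
  induction n with
  | zero =>
    intro i
    simp [mv]
  | succ n ih =>
    intro i
    refine Fin.lastCases ?_ (fun j => ?_) i
    · simp
    · rw [mv_castSucc, mv_castSucc, mv_castSucc]
      have h0 : ∀ m, (kapT X X' Z T (m + 1)).hom = (kapT X X' Z T m).hom ▷ (Z ⊗ T) ≫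
          tensorμ (pw X Z m) (pw X' T m) Z T := fun m => rfl
      have h1 : (kapT X X' Z T (n + 1 + 1)).hom = ((kapT X X' Z T n).hom ▷ (Z ⊗ T) ▷ (Z ⊗ T)) ≫
          (tensorμ (pw X Z n) (pw X' T n) Z T ▷ (Z ⊗ T)) ≫
            tensorμ (pw X Z n ⊗ Z) (pw X' T n ⊗ T) Z T := by
        rw [h0, h0]
        simp
      have h2 : (exch (pw (X ⊗ X') (Z ⊗ T) n) (Z ⊗ T) (Z ⊗ T)).hom ≫
          (kapT X X' Z T (n + 1 + 1)).hom = (kapT X X' Z T (n + 1 + 1)).hom ≫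
            ((exch (pw X Z n) Z Z).hom ⊗ₘ (exch (pw X' T n) T T).hom) := by
        rw [h1, ← exch_natural_first_assoc, exch_tensor]
        simp only [Category.assoc]
      rw [Category.assoc, h2]
      have h3 : (mv (X ⊗ X') (Z ⊗ T) n j ▷ (Z ⊗ T)) ≫ (kapT X X' Z T (n + 1 + 1)).hom =
          (kapT X X' Z T (n + 1 + 1)).hom ≫ ((mv X Z n j ▷ Z) ⊗ₘ (mv X' T n j ▷ T)) := by
        rw [h0, ← comp_whiskerRight_assoc, ih, comp_whiskerRight_assoc, tensorμ_natural_left,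
          Category.assoc]
      rw [← Category.assoc, h3, Category.assoc, tensorHom_comp_tensorHom]

lemma exch_triv {T : C} (hT : (β_ T T).hom = 𝟙 _) (W : C) : (exch W T T).hom = 𝟙 _ := by
  simp [exch, hT]

lemma mv_triv {T : C} (hT : (β_ T T).hom = 𝟙 _) (X : C) (n : ℕ) :
    ∀ i : Fin (n + 1), mv X T n i = 𝟙 _ := by
  induction n with
  | zero =>
    intro i
    simp [mv]
  | succ n ih =>
    intro i
    refine Fin.lastCases ?_ (fun j => ?_) i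
    · simp
    · rw [mv_castSucc, ih, exch_triv hT]
      simp

variable [Preadditive C] [MonoidalPreadditive C]

lemma alt_tensor {T : C} (hT : (β_ T T).hom = 𝟙 _) (X X' Z : C) (n : ℕ) :
    alt (X ⊗ X') (Z ⊗ T) n ≫ (kapT X X' Z T n).hom =
      (kapT X X' Z T n).hom ≫ (alt X Z n ▷ pw X' T n) := by
  induction n with
  | zero => simp [alt, kapT]
  | succ n ih =>
    have h6 : ((∑ i : Fin (n + 1), ((-1 : ℤ) ^ (n + i.val)) • (mv X Z n i ≫ (alt X Z n ▷ Z))) ▷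
        pw X' T (n + 1)) = ∑ i : Fin (n + 1), ((-1 : ℤ) ^ (n + i.val)) •
          ((mv X Z n i ≫ (alt X Z n ▷ Z)) ▷ pw X' T (n + 1)) := by
      rw [sum_whiskerRight]
      refine Finset.sum_congr rfl (fun i _ => ?_)
      rw [wr_zsmul]
    simp only [alt, Preadditive.sum_comp]
    rw [h6, Preadditive.comp_sum]
    refine Finset.sum_congr rfl (fun i _ => ?_)
    rw [Preadditive.zsmul_comp, Preadditive.comp_zsmul, Category.assoc]
    congr 1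
    have h0 : ∀ m, (kapT X X' Z T (m + 1)).hom = (kapT X X' Z T m).hom ▷ (Z ⊗ T) ≫
        tensorμ (pw X Z m) (pw X' T m) Z T := fun m => rfl
    have h3 : (alt (X ⊗ X') (Z ⊗ T) n ▷ (Z ⊗ T)) ≫ (kapT X X' Z T (n + 1)).hom =
        (kapT X X' Z T (n + 1)).hom ≫ ((alt X Z n ▷ Z) ▷ (pw X' T n ⊗ T)) := by
      rw [h0, ← comp_whiskerRight_assoc, ih, comp_whiskerRight_assoc]
      have h7 : (alt X Z n ▷ pw X' T n) ▷ (Z ⊗ T) ≫ tensorμ (pw X Z n) (pw X' T n) Z T =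
          tensorμ (pw X Z n) (pw X' T n) Z T ≫ ((alt X Z n ▷ Z) ▷ (pw X' T n ⊗ T)) := by
        have := tensorμ_natural_left (alt X Z n) (𝟙 (pw X' T n)) Z T
        simpa using this
      rw [h7, Category.assoc]
    rw [h3, ← Category.assoc, mv_tensor, mv_triv hT, Category.assoc]
    simp

/-- The antisymmetrizer of `Z ⊗ T` vanishes if the one of `Z` does and the symmetry of `T ⊗ T` is
the identity. -/
lemma alt_tensor_zero {T : C} (hT : (β_ T T).hom = 𝟙 _) (X X' Z : C) (n : ℕ)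
    (h : alt X Z n = 0) : alt (X ⊗ X') (Z ⊗ T) n = 0 := by
  have h1 := alt_tensor hT X X' Z n
  rw [h] at h1
  have h2 : ((0 : pw X Z n ⟶ pw X Z n) ▷ pw X' T n) = 0 := (tensorRight _).map_zero _ _
  rw [h2, comp_zero] at h1
  rw [← cancel_mono (kapT X X' Z T n).hom, h1, zero_comp]

end

section Sign

variable {C : Type u} [Category.{v} C] [Preadditive C] [MonoidalCategory C] [SymmetricCategory C]
  [MonoidalPreadditive C]

/-- The symmetry of `A ⊗ A` is the sign `c`. -/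
def Sg (A : C) (c : ℤˣ) : Prop := (β_ A A).hom = (c : ℤ) • 𝟙 _

lemma Sg.iso {A B : C} {c : ℤˣ} (h : Sg A c) (e : A ≅ B) : Sg B c := by
  have h1 : (β_ B B).hom = (e.inv ⊗ₘ e.inv) ≫ (β_ A A).hom ≫ (e.hom ⊗ₘ e.hom) := by
    rw [BraidedCategory.braiding_naturality_assoc, tensorHom_comp_tensorHom]
    simp
  unfold Sg at h ⊢
  rw [h1, h, Preadditive.zsmul_comp, Preadditive.comp_zsmul, Category.id_comp,
    tensorHom_comp_tensorHom]
  simp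

lemma Sg.tensor {A B : C} {a b : ℤˣ} (hA : Sg A a) (hB : Sg B b) : Sg (A ⊗ B) (a * b) := by
  have h1 := tensorμ_braiding A B A B
  unfold Sg at hA hB ⊢
  have h2 : (((a : ℤ) • 𝟙 (A ⊗ A)) ⊗ₘ ((b : ℤ) • 𝟙 (B ⊗ B))) =
      ((a * b : ℤˣ) : ℤ) • 𝟙 ((A ⊗ A) ⊗ (B ⊗ B)) := by
    rw [MonoidalCategory.tensorHom_def, wr_zsmul, wl_zsmul, Preadditive.zsmul_comp,
      Preadditive.comp_zsmul, smul_smul]
    simp
  rw [hA, hB, h2, Preadditive.comp_zsmul, Category.comp_id] at h1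
  have h3 : (β_ (A ⊗ B) (A ⊗ B)).hom = ((β_ (A ⊗ B) (A ⊗ B)).hom ≫ tensorμ A B A B) ≫
      tensorδ A B A B := by simp
  rw [h3, ← h1, Preadditive.zsmul_comp]
  simp

lemma Sg.of_tensor {A B : C} {b c : ℤˣ} (hB : Sg B b) (hAB : Sg (A ⊗ B) c)
    (hf : ∀ {X Y : C} (f g : X ⟶ Y), f ▷ B = g ▷ B → f = g) : Sg A (c * b) := by
  have h1 := tensorμ_braiding A B A B
  unfold Sg at hB hAB ⊢
  rw [hB, hAB, Preadditive.zsmul_comp, Category.id_comp] at h1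
  have h2 : ((β_ A A).hom ⊗ₘ ((b : ℤ) • 𝟙 (B ⊗ B))) = (b : ℤ) • ((β_ A A).hom ▷ (B ⊗ B)) := by
    rw [MonoidalCategory.tensorHom_def, wl_zsmul, Preadditive.comp_zsmul]
    simp
  rw [h2, Preadditive.comp_zsmul] at h1
  have h3 : (b : ℤ) • ((β_ A A).hom ▷ (B ⊗ B)) = (c : ℤ) • 𝟙 _ := by
    have h4 : (b : ℤ) • ((β_ A A).hom ▷ (B ⊗ B)) = tensorδ A B A B ≫
        ((b : ℤ) • (tensorμ A B A B ≫ ((β_ A A).hom ▷ (B ⊗ B)))) := by
      rw [Preadditive.comp_zsmul, tensorδ_tensorμ_assoc]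
    rw [h4, h1, Preadditive.comp_zsmul]
    simp
  have h5 : (β_ A A).hom ▷ (B ⊗ B) = (((c * b : ℤˣ) : ℤ) • 𝟙 (A ⊗ A)) ▷ (B ⊗ B) := by
    have h6 : (β_ A A).hom ▷ (B ⊗ B) = (b : ℤ) • (b : ℤ) • ((β_ A A).hom ▷ (B ⊗ B)) := by
      rw [smul_smul, ← Units.val_mul, Int.units_mul_self, Units.val_one, one_smul]
    rw [h6, h3, wr_zsmul, smul_smul, id_whiskerRight, ← Units.val_mul, mul_comm]
  have h6 : ∀ {X Y : C} (f g : X ⟶ Y), f ▷ (B ⊗ B) = g ▷ (B ⊗ B) → f = g := by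
    intro X Y f g h
    apply hf
    apply hf
    rw [whiskerRight_tensor, whiskerRight_tensor] at h
    simpa using h
  exact h6 _ _ h5

end Sign

section Shift

variable {C : Type u} [Category.{v} C] [Preadditive C] [HasZeroObject C] [HasShift C ℤ]
  [∀ n : ℤ, (shiftFunctor C n).Additive] [Pretriangulated C] [MonoidalCategory C]
  [SymmetricCategory C] [TensorTriangulated C] [MonoidalPreadditive C]

lemma whisker_unit_shift_inj (n : ℤ) {X Y : C} (f g : X ⟶ Y)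
    (h : f ▷ ((𝟙_ C)⟦n⟧) = g ▷ ((𝟙_ C)⟦n⟧)) : f = g := by
  have h1 : (f ▷ 𝟙_ C)⟦n⟧' = (g ▷ 𝟙_ C)⟦n⟧' := by
    rw [← cancel_epi (rShift X (𝟙_ C) n).hom, ← rShift_natural_left, ← rShift_natural_left, h]
  have h2 := (shiftFunctor C n).map_injective h1
  simpa using h2

variable (C) in
/-- The shifts of the unit. -/
noncomputable def unitShiftIso (n m : ℤ) :
    (𝟙_ C)⟦n⟧ ⊗ (𝟙_ C)⟦m⟧ ≅ (𝟙_ C)⟦n + m⟧ :=
  rShift ((𝟙_ C)⟦n⟧) (𝟙_ C) m ≪≫ (shiftFunctor C m).mapIso (ρ_ _) ≪≫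
    ((shiftFunctorAdd C n m).app (𝟙_ C)).symm

variable (C) in
lemma sg_one : Sg ((𝟙_ C)⟦(1 : ℤ)⟧) (-1) := by
  unfold Sg
  rw [TensorTriangulated.sign]
  simp

variable (C) in
/-- The symmetry of the shifts of the unit. -/
lemma sg_shift (n : ℤ) : Sg ((𝟙_ C)⟦n⟧) n.negOnePow := by
  induction n using Int.induction_on with
  | zero =>
    have h0 : Sg (𝟙_ C) 1 := by
      unfold Sg
      simp only [Units.val_one, one_smul, braiding_tensorUnit_left]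
      rw [unitors_equal, Iso.hom_inv_id]
    simpa using h0.iso ((shiftFunctorZero C ℤ).app (𝟙_ C)).symm
  | succ n ih =>
    rw [Int.negOnePow_succ]
    have := (ih.tensor (sg_one C)).iso (unitShiftIso C n 1)
    simpa using this
  | pred n ih =>
    have h1 : Sg ((𝟙_ C)⟦(-(n : ℤ) - 1)⟧ ⊗ (𝟙_ C)⟦(1 : ℤ)⟧) ((-(n : ℤ)).negOnePow) := by
      refine ih.iso (?_ ≪≫ (unitShiftIso C (-(n : ℤ) - 1) 1).symm)
      exact eqToIso (by rw [sub_add_cancel])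
    have h2 := Sg.of_tensor (sg_one C) h1 (fun f g => whisker_unit_shift_inj 1 f g)
    rw [Int.negOnePow_sub]
    simpa using h2

lemma braiding_even {n : ℤ} (hn : Even n) :
    (β_ ((𝟙_ C)⟦n⟧) ((𝟙_ C)⟦n⟧)).hom = 𝟙 _ := by
  have h := sg_shift C n
  unfold Sg at h
  rw [h, Int.negOnePow_even n hn]
  simp

end Shift

end Pool.Agent.T6helper6.MT
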