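import Pool.Agent.Y116.MT.HomNum

/-!
# The vanishing of an antisymmetrizer bounds the dimension of the zeroth cohomology
-/

set_option autoImplicit false
set_option linter.unusedSectionVars false
set_option linter.unusedSimpArgs false
set_option backward.isDefEq.respectTransparency false
set_option backward.defeqAttrib.useBackward true

open CategoryTheory Limits MonoidalCategory Pretriangulated Triangulated TensorProduct
namespace Pool.Agent.T6helper6.MT
open Pool.Agent.Y116.MT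
universe v u w

section Vec

variable {E : Type w} [Field E] (X V : ModuleCat.{w} E)

/-- The product of functionals. -/
noncomputable def fnl (φ : X →ₗ[E] E) : ∀ (n : ℕ) (_ : Fin n → (V →ₗ[E] E)),
    ((pw X V n : ModuleCat.{w} E) →ₗ[E] E)
  | 0, _ => φ
  | n + 1, f => LinearMap.mul' E E ∘ₗ TensorProduct.map (fnl φ n (Fin.init f)) (f (Fin.last n))

/-- A pure tensor. -/
noncomputable def tm {n : ℕ} (y : (pw X V n : ModuleCat.{w} E)) (v : V) :
    (pw X V (n + 1) : ModuleCat.{w} E) := y ⊗ₜ[E] v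

lemma fnl_tm (φ : X →ₗ[E] E) (n : ℕ) (f : Fin (n + 1) → (V →ₗ[E] E))
    (y : (pw X V n : ModuleCat.{w} E)) (v : V) :
    fnl X V φ (n + 1) f (tm X V y v) = fnl X V φ n (Fin.init f) y * f (Fin.last n) v := by
  change LinearMap.mul' E E (TensorProduct.map (fnl X V φ n (Fin.init f)) (f (Fin.last n))
    (y ⊗ₜ[E] v)) = _
  rw [TensorProduct.map_tmul, LinearMap.mul'_apply]

lemma alt_succ_ten (x : X) (n : ℕ) (v : Fin (n + 1) → V) :
    (alt X V (n + 1)) (ten X V x (n + 1) v) =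
      ∑ i : Fin (n + 1), ((-1 : ℤ) ^ (n + i.val)) •
        (tm X V ((alt X V n) (ten X V x n (i.removeNth v))) (v i)) := by
  have h3 := ModuleCat.hom_sum (fun i : Fin (n + 1) =>
    ((-1 : ℤ) ^ (n + i.val)) • (mv X V n i ≫ (alt X V n ▷ V))) Finset.univ
  refine (LinearMap.congr_fun h3 _).trans ?_
  rw [LinearMap.sum_apply]
  refine Finset.sum_congr rfl (fun i _ => ?_)
  have h4 : (((-1 : ℤ) ^ (n + i.val)) • (mv X V n i ≫ (alt X V n ▷ V))).hom
      (ten X V x (n + 1) v) = ((-1 : ℤ) ^ (n + i.val)) •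
        ((alt X V n ▷ V) ((mv X V n i) (ten X V x (n + 1) v))) := rfl
  rw [h4, mv_apply]
  rfl

lemma fnl_alt (φ : X →ₗ[E] E) (x : X) (n : ℕ) : ∀ (f : Fin n → (V →ₗ[E] E)) (v : Fin n → V),
    (∀ i j, f i (v j) = if i = j then 1 else 0) →
      fnl X V φ n f ((alt X V n) (ten X V x n v)) = φ x := by
  induction n with
  | zero => intro f v _; rfl
  | succ n ih =>
    intro f v h
    rw [alt_succ_ten, map_sum, Finset.sum_eq_single (Fin.last n)]
    · rw [map_zsmul, fnl_tm, h, if_pos rfl, mul_one, Fin.val_last, Even.neg_one_pow ⟨n, rfl⟩,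
        one_smul, Fin.removeNth_last]
      apply ih
      intro i j
      have := h i.castSucc j.castSucc
      simpa [Fin.init, Fin.castSucc_inj] using this
    · intro i _ hi
      rw [map_zsmul, fnl_tm, h, if_neg (Ne.symm hi), mul_zero, smul_zero]
    · intro h; exact absurd (Finset.mem_univ _) h

/-- The antisymmetrizer does not vanish on low tensor powers. -/
theorem finrank_lt_of_alt [Module.Finite E V] [Nontrivial X] (n : ℕ) (h : alt X V n = 0) :
    Module.finrank E V < n := by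
  by_contra hn
  push Not at hn
  obtain ⟨x, hx⟩ := exists_ne (0 : X)
  have hφ : ∃ φ : Module.Dual E X, φ x ≠ 0 := by
    by_contra h1
    push Not at h1
    exact hx ((Module.forall_dual_apply_eq_zero_iff E x).1 h1)
  obtain ⟨φ, hφ⟩ := hφ
  apply hφ
  let b := Module.finBasis E V
  rw [← fnl_alt X V φ x n (fun i => b.coord (Fin.castLE hn i)) (fun i => b (Fin.castLE hn i)) ?_, h]
  · have h2 : (0 : pw X V n ⟶ pw X V n) (ten X V x n fun i => b (Fin.castLE hn i)) = 0 := rfl
    rw [h2, map_zero]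
  · intro i j
    rw [Module.Basis.coord_apply, Module.Basis.repr_self, Finsupp.single_apply]
    simp [Fin.castLE_inj, eq_comm]

end Vec

section Real

open Functor.LaxMonoidal

variable {C : Type u} [Category.{v} C] [Preadditive C] [HasZeroObject C] [HasShift C ℤ]
  [∀ n : ℤ, (shiftFunctor C n).Additive] [Pretriangulated C] [MonoidalCategory C]
  [SymmetricCategory C] [TensorTriangulated C] {E : Type w} [Field E] {R : Realisation C E}

lemma mono_mu (R : Realisation C E) (X Y : C) : Mono (μ R.H X Y) := by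
  let e := (shiftFunctorZero C ℤ).app X
  let f := (shiftFunctorZero' C (-0 : ℤ) (by simp)).app Y
  have h1 : Mono (μ R.H (X⟦(0 : ℤ)⟧) (Y⟦(-0 : ℤ)⟧) ≫ R.H.map (shiftTensorIso X Y 0).hom) := by
    rw [ModuleCat.mono_iff_injective]
    intro a b hab
    apply DirectSum.of_injective (β := fun k : ℤ =>
      (R.H.obj (X⟦k⟧) ⊗ R.H.obj (Y⟦-k⟧) : ModuleCat.{w} E)) 0
    apply (R.kunneth X Y).1
    simp only [kunnethMap]
    have h2 : ∀ a, DirectSum.toModule E ℤ (R.H.obj (X ⊗ Y)) (fun i : ℤ =>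
        (μ R.H (X⟦i⟧) (Y⟦-i⟧) ≫ R.H.map (shiftTensorIso X Y i).hom).hom)
        (DirectSum.of (fun k : ℤ => (R.H.obj (X⟦k⟧) ⊗ R.H.obj (Y⟦-k⟧) : ModuleCat.{w} E)) 0 a) =
        (μ R.H (X⟦(0 : ℤ)⟧) (Y⟦(-0 : ℤ)⟧) ≫ R.H.map (shiftTensorIso X Y 0).hom).hom a := by
      intro a
      exact DirectSum.toModule_lof (R := E) (M := fun k : ℤ =>
        ((R.H.obj (X⟦k⟧) ⊗ R.H.obj (Y⟦-k⟧) : ModuleCat.{w} E) : Type w)) (0 : ℤ) a
    exact (h2 a).trans (hab.trans (h2 b).symm)
  have h2 : Mono (μ R.H (X⟦(0 : ℤ)⟧) (Y⟦(-0 : ℤ)⟧)) := mono_of_mono _ (R.H.map (shiftTensorIso X Y 0).hom)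
  have h : (R.H.map e.hom ⊗ₘ R.H.map f.hom) ≫ μ R.H X Y =
      μ R.H (X⟦(0 : ℤ)⟧) (Y⟦(-0 : ℤ)⟧) ≫ R.H.map (e.hom ⊗ₘ f.hom) := μ_natural R.H e.hom f.hom
  have h3 : μ R.H X Y = inv (R.H.map e.hom ⊗ₘ R.H.map f.hom) ≫
      μ R.H (X⟦(0 : ℤ)⟧) (Y⟦(-0 : ℤ)⟧) ≫ R.H.map (e.hom ⊗ₘ f.hom) := by
    rw [← h, IsIso.inv_hom_id_assoc]
  rw [h3]
  have h4 : Mono (R.H.map (e.hom ⊗ₘ f.hom)) := inferInstance
  exact mono_comp _ _

lemma mono_whiskerRight {X Y : ModuleCat.{w} E} (f : X ⟶ Y) [Mono f] (V : ModuleCat.{w} E) :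
    Mono (f ▷ V) := by
  rw [ModuleCat.mono_iff_injective]
  exact Module.Flat.rTensor_preserves_injective_linearMap (M := V) f.hom
    ((ModuleCat.mono_iff_injective f).1 inferInstance)

lemma mono_kap (R : Realisation C E) (X Z : C) (n : ℕ) : Mono (kap R.H X Z n) := by
  induction n with
  | zero => simp only [kap]; infer_instance
  | succ n ih =>
    have h1 := mono_mu R (pw X Z n) Z
    have h2 := mono_whiskerRight (kap R.H X Z n) (R.H.obj Z)
    exact mono_comp _ _

/-- If the antisymmetrizer of order `n` vanishes, the zeroth cohomology has dimension `< n`. -/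
theorem finrank_lt_of_alt_real [MonoidalPreadditive C] {X Z : C} (hX : ¬ IsZero (R.H.obj X)) (n : ℕ)
    (h : alt X Z n = 0) : Module.finrank E (R.H.obj Z) < n := by
  have h1 := alt_lax R.H X Z n
  rw [h, Functor.map_zero, comp_zero] at h1
  have h2 := mono_kap R X Z n
  have h3 : alt (R.H.obj X) (R.H.obj Z) n = 0 := by
    rw [← cancel_mono (kap R.H X Z n), h1, zero_comp]
  have h4 : Nontrivial (R.H.obj X) := by
    rwa [ModuleCat.isZero_iff_subsingleton, not_subsingleton_iff_nontrivial] at hX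
  exact finrank_lt_of_alt _ _ n h3

end Real

end Pool.Agent.T6helper6.MT
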