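import Pool.Agent.T6helper6.MT.Pot
import Pool.Agent.T6helper6.MT.Even
import Pool.Agent.T6helper6.MT.Vec

/-!
# Betti numbers
-/

set_option autoImplicit false
set_option linter.unusedSectionVars false
set_option linter.unusedSimpArgs false
set_option backward.isDefEq.respectTransparency false
set_option backward.defeqAttrib.useBackward true

open CategoryTheory Limits MonoidalCategory Pretriangulated Triangulated TensorProduct
namespace Pool.Agent.T6helper6.MT
open Pool.Agent.Y116.MT Pool.Agent.V1178.MT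
universe v u w

section Alg

lemma finrank_directSum_finset {E : Type w} [Field E] (M : ℤ → Type w) [∀ i, AddCommGroup (M i)]
    [∀ i, Module E (M i)] [∀ i, Module.Finite E (M i)] (s : Finset ℤ)
    (hs : ∀ i, i ∉ s → Subsingleton (M i)) :
    Module.finrank E (DirectSum ℤ M) = ∑ i ∈ s, Module.finrank E (M i) := by
  have h1 : Function.Bijective (DirectSum.lmk E ℤ M s) := by
    constructor
    · exact DirectSum.mk_injective s
    · intro y
      refine ⟨fun i => y i, ?_⟩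
      ext i
      by_cases hi : i ∈ s
      · exact DirectSum.mk_apply_of_mem hi
      · have := hs i hi
        exact Subsingleton.elim _ _
  rw [← (LinearEquiv.ofBijective _ h1).finrank_eq, Module.finrank_pi_fintype]
  exact Finset.sum_coe_sort s (fun i => Module.finrank E (M i))

end Alg

section

variable {C : Type u} [Category.{v} C] [Preadditive C] [HasZeroObject C] [HasShift C ℤ]
  [∀ n : ℤ, (shiftFunctor C n).Additive] [Pretriangulated C] [MonoidalCategory C]
  [SymmetricCategory C] [TensorTriangulated C] {E : Type w} [Field E] {R : Realisation C E}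

/-- The Betti numbers. -/
noncomputable def hd (R : Realisation C E) (X : C) (i : ℤ) : ℕ :=
  Module.finrank E (R.H.obj (X⟦i⟧))

/-- The total Betti number. -/
noncomputable def tot (R : Realisation C E) (X : C) : ℕ := ∑ᶠ i : ℤ, hd R X i

lemma hd_eq_zero {X : C} {i : ℤ} : hd R X i = 0 ↔ IsZero (R.H.obj (X⟦i⟧)) := by
  rw [ModuleCat.isZero_iff_subsingleton]
  exact Module.finrank_zero_iff

lemma finrank_iso {V W : ModuleCat.{w} E} (e : V ≅ W) : Module.finrank E V = Module.finrank E W :=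
  e.toLinearEquiv.finrank_eq

lemma hd_iso {X Y : C} (e : X ≅ Y) (i : ℤ) : hd R X i = hd R Y i :=
  finrank_iso (R.H.mapIso ((shiftFunctor C i).mapIso e))

lemma hd_shift (X : C) (a i : ℤ) : hd R (X⟦a⟧) i = hd R X (a + i) :=
  finrank_iso (R.H.mapIso ((shiftFunctorAdd C a i).app X).symm)

lemma hd_zero (X : C) : hd R X 0 = Module.finrank E (R.H.obj X) :=
  finrank_iso (R.H.mapIso ((shiftFunctorZero C ℤ).app X))

lemma hd_fin (R : Realisation C E) (X : C) : ∃ N : ℕ, ∀ i : ℤ, i ∉ Finset.Icc (-N : ℤ) N →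
    hd R X i = 0 := by
  obtain ⟨N, hN⟩ := R.bounded X
  refine ⟨N, fun i hi => hd_eq_zero.2 (hN i ?_)⟩
  rw [Finset.mem_Icc] at hi
  omega

lemma hd_support (R : Realisation C E) (X : C) : (Function.support (hd R X)).Finite := by
  obtain ⟨N, hN⟩ := hd_fin R X
  apply Set.Finite.subset (Finset.Icc (-N : ℤ) N).finite_toSet
  intro i hi
  by_contra h
  exact hi (hN i h)

lemma tot_eq_sum {X : C} {s : Finset ℤ} (hs : ∀ i, i ∉ s → hd R X i = 0) :
    tot R X = ∑ i ∈ s, hd R X i := by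
  apply finsum_eq_sum_of_support_subset
  intro i hi
  by_contra h
  exact hi (hs i h)

lemma hd_le_tot (X : C) (i : ℤ) : hd R X i ≤ tot R X := by
  obtain ⟨N, hN⟩ := hd_fin R X
  rw [tot_eq_sum hN]
  by_cases hi : i ∈ Finset.Icc (-N : ℤ) N
  · exact Finset.single_le_sum (fun _ _ => Nat.zero_le _) hi
  · rw [hN i hi]
    exact Nat.zero_le _

/-- The Künneth formula for the Betti numbers. -/
lemma hd_tensor {X Y : C} {n : ℤ} {s : Finset ℤ} (hs : ∀ i, i ∉ s → hd R X i = 0) :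
    hd R (X ⊗ Y) n = ∑ i ∈ s, hd R X i * hd R Y (n - i) := by
  have h1 : hd R (X ⊗ Y) n = Module.finrank E (R.H.obj (X ⊗ Y⟦n⟧)) :=
    finrank_iso (R.H.mapIso (rShift X Y n).symm)
  have h2 := (LinearEquiv.ofBijective _ (R.kunneth X (Y⟦n⟧))).finrank_eq
  rw [h1, ← h2]
  have : ∀ i : ℤ, Module.Finite E (R.H.obj (X⟦i⟧) ⊗ R.H.obj (Y⟦n⟧⟦-i⟧) : ModuleCat.{w} E) :=
    fun i => Module.Finite.tensorProduct E _ _
  refine (finrank_directSum_finset (fun i : ℤ =>
    ((R.H.obj (X⟦i⟧) ⊗ R.H.obj (Y⟦n⟧⟦-i⟧) : ModuleCat.{w} E) : Type w)) s ?_).trans ?_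
  · intro i hi
    exact tensor_subsingleton_left (hd_eq_zero.1 (hs i hi))
  · refine Finset.sum_congr rfl (fun i _ => ?_)
    have h3 : Module.finrank E (R.H.obj (X⟦i⟧) ⊗ R.H.obj (Y⟦n⟧⟦-i⟧) : ModuleCat.{w} E) =
      Module.finrank E (R.H.obj (X⟦i⟧)) * Module.finrank E (R.H.obj (Y⟦n⟧⟦-i⟧)) :=
      Module.finrank_tensorProduct
    rw [h3]
    have h4 : Module.finrank E (R.H.obj (Y⟦n⟧⟦-i⟧)) = hd R Y (n - i) := by
      have := hd_shift (R := R) Y n (-i)
      rw [← sub_eq_add_neg] at this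
      exact this
    rw [h4]
    rfl

lemma tot_tensor (X Y : C) : tot R (X ⊗ Y) = tot R X * tot R Y := by
  obtain ⟨N, hN⟩ := hd_fin R X
  have h1 : ∀ n, hd R (X ⊗ Y) n = ∑ i ∈ Finset.Icc (-N : ℤ) N, hd R X i * hd R Y (n - i) :=
    fun n => hd_tensor hN
  unfold tot
  simp_rw [h1]
  rw [finsum_sum_comm]
  · have h2 : ∀ i : ℤ, ∑ᶠ n : ℤ, hd R X i * hd R Y (n - i) = hd R X i * ∑ᶠ n, hd R Y n := by
      intro i
      rw [← mul_finsum]
      congr 1
      exact finsum_comp_equiv (Equiv.subRight i) (f := hd R Y)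
    simp_rw [h2]
    rw [← Finset.sum_mul]
    congr 1
    exact (tot_eq_sum hN).symm
  · intro i _
    apply Set.Finite.subset ((hd_support R Y).preimage ((Equiv.subRight i).injective.injOn))
    intro n hn
    simp only [Function.mem_support, ne_eq, mul_eq_zero, not_or] at hn
    exact hn.2

lemma hd_unit (R : Realisation C E) : hd R (𝟙_ C) 0 = 1 := by
  rw [hd_zero, ← finrank_iso (asIso (Functor.LaxMonoidal.ε R.H))]
  exact Module.finrank_self E

lemma tot_unit (R : Realisation C E) : tot R (𝟙_ C) = 1 := by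
  rw [tot_eq_sum (s := {0})]
  · simp [hd_unit]
  · intro i hi
    exact hd_eq_zero.2 (deg_unit i (by simpa using hi))

lemma tot_pw (M : C) (n : ℕ) : tot R (pw (𝟙_ C) M n) = tot R M ^ n := by
  induction n with
  | zero => simp [tot_unit]
  | succ n ih => rw [pow_succ, ← ih]; exact tot_tensor _ _

/-- The width of a tensor power. -/
lemma hd_pw_zero {M : C} {N : ℕ} (hM : ∀ i : ℤ, i ∉ Finset.Icc (-N : ℤ) N → hd R M i = 0) (n : ℕ) :
    ∀ i : ℤ, i ∉ Finset.Icc (-(n * N : ℕ) : ℤ) (n * N : ℕ) → hd R (pw (𝟙_ C) M n) i = 0 := by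
  induction n with
  | zero =>
    intro i hi
    exact hd_eq_zero.2 (deg_unit i (by
      rintro rfl
      simp at hi))
  | succ n ih =>
    intro i hi
    change hd R (pw (𝟙_ C) M n ⊗ M) i = 0
    rw [hd_tensor ih]
    apply Finset.sum_eq_zero
    intro j hj
    rw [Finset.mem_Icc] at hj hi
    rw [hM (i - j), mul_zero]
    rw [Finset.mem_Icc]
    push_cast at hi hj ⊢
    intro h
    apply hi
    constructor <;> nlinarith [hj.1, hj.2, h.1, h.2]

/-- The tensor power trick. -/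
lemma power_trick {M : C} {ρ : ℕ} (h : ∀ (n : ℕ) (i : ℤ), hd R (pw (𝟙_ C) M n) i ≤ ρ ^ n) :
    tot R M ≤ ρ := by
  obtain ⟨N, hN⟩ := hd_fin R M
  have h1 : ∀ n : ℕ, tot R M ^ n ≤ (2 * (n * N) + 1) * ρ ^ n := by
    intro n
    rw [← tot_pw, tot_eq_sum (hd_pw_zero hN n)]
    refine (Finset.sum_le_card_nsmul _ _ (ρ ^ n) (fun i _ => h n i)).trans ?_
    rw [Int.card_Icc, smul_eq_mul]
    apply Nat.mul_le_mul_right
    push_cast
    omega
  by_contra h2
  push Not at h2
  rcases Nat.eq_zero_or_pos ρ with h0 | h0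
  · subst h0
    have := h1 1
    simp at this
    omega
  have h3 : ∀ n : ℕ, (1 : ℝ) ≤ (2 * N + 1) * ((n : ℝ) ^ 1 * ((ρ : ℝ) / (ρ + 1)) ^ n) + ((ρ : ℝ) / (ρ + 1)) ^ n := by
    intro n
    have h4 : (ρ + 1) ^ n ≤ (2 * (n * N) + 1) * ρ ^ n :=
      (Nat.pow_le_pow_left (by omega) n).trans (h1 n)
    have h5 : ((ρ : ℝ) + 1) ^ n ≤ (2 * (n * N) + 1) * (ρ : ℝ) ^ n := by exact_mod_cast h4
    have h6 : (0 : ℝ) < (ρ + 1) ^ n := by positivity
    rw [div_pow]
    have h7 : (1 : ℝ) ≤ (2 * (n * N) + 1) * (ρ : ℝ) ^ n / ((ρ : ℝ) + 1) ^ n := by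
      rw [le_div_iff₀ h6, one_mul]
      exact h5
    have h8 : (2 * ((n : ℝ) * N) + 1) * (ρ : ℝ) ^ n / ((ρ : ℝ) + 1) ^ n ≤
        (2 * N + 1) * ((n : ℝ) ^ 1 * ((ρ : ℝ) ^ n / (ρ + 1) ^ n)) + (ρ : ℝ) ^ n / (ρ + 1) ^ n := by
      have h9 : (0 : ℝ) ≤ (ρ : ℝ) ^ n / (ρ + 1) ^ n := by positivity
      have h10 : (0 : ℝ) ≤ (n : ℝ) * ((ρ : ℝ) ^ n / (ρ + 1) ^ n) := by positivity
      rw [mul_div_assoc]
      nlinarith
    exact h7.trans h8
  have hr : |(ρ : ℝ) / (ρ + 1)| < 1 := by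
    rw [abs_of_nonneg (by positivity), div_lt_one (by positivity)]
    linarith
  have h4 := (((tendsto_pow_const_mul_const_pow_of_abs_lt_one 1 hr).const_mul (2 * (N : ℝ) + 1)).add
    (tendsto_pow_atTop_nhds_zero_of_abs_lt_one hr))
  rw [mul_zero, add_zero] at h4
  have h5 := ge_of_tendsto' h4 h3
  linarith

end

end Pool.Agent.T6helper6.MT
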