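import Pool.Agent.V1178.MT.Main

/-!
# Orthogonality is automatic for truncation triangles of a conservative realisation
-/

set_option autoImplicit false
set_option linter.unusedSectionVars false
set_option linter.unusedSimpArgs false
set_option backward.isDefEq.respectTransparency false
set_option backward.defeqAttrib.useBackward true

open CategoryTheory Limits MonoidalCategory Pretriangulated Triangulated

namespace Pool.Agent.T6helper6.MT

open Pool.Agent.Y116.MT Pool.Agent.V1178.MT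

universe v u w

section Hom

variable {C : Type u} [Category.{v} C] [Preadditive C] [HasZeroObject C] [HasShift C ℤ]
  [∀ n : ℤ, (shiftFunctor C n).Additive] [Pretriangulated C]
  {A : Type*} [Category A] [Abelian A] (H : C ⥤ A) [H.IsHomological]
  {X Y Z : C} {f : X ⟶ Y} {g : Y ⟶ Z} {h : Z ⟶ X⟦(1 : ℤ)⟧}
  (hT : Triangle.mk f g h ∈ distTriang C)

include hT

/-- The third term vanishes if the first map is an epimorphism in degree `n` and a monomorphism
in degree `n + 1`. -/
lemma hz3_of_iso (n : ℤ) (h1 : Epi (H.map (f⟦n⟧'))) (h2 : Mono (H.map (f⟦n + 1⟧'))) :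
    IsZero (H.obj (Z⟦n⟧)) := by
  let _ := Functor.ShiftSequence.tautological H ℤ
  have h3 : (H.shift n).map g = 0 := by
    have := (H.homologySequence_epi_shift_map_mor₁_iff _ hT n).1 h1
    exact this
  have h4 := (H.homologySequence_mono_shift_map_mor₁_iff _ hT n (n + 1) rfl).1 h2
  have h5 := H.homologySequence_exact₃ _ hT n (n + 1) rfl
  have h6 := h5.isZero_of_both_zeros h3 h4
  exact h6

/-- The first term vanishes if the second map is an isomorphism in the relevant degrees. -/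
lemma hz1_of_iso (n : ℤ) (h1 : Epi (H.map (g⟦n - 1⟧'))) (h2 : Mono (H.map (g⟦n⟧'))) :
    IsZero (H.obj (X⟦n⟧)) := by
  let _ := Functor.ShiftSequence.tautological H ℤ
  have h3 : (H.shift n).map f = 0 := by
    have := (H.homologySequence_mono_shift_map_mor₂_iff _ hT n).1 h2
    exact this
  have h4 := (H.homologySequence_epi_shift_map_mor₂_iff _ hT (n - 1) n (by omega)).1 h1
  have h5 := H.homologySequence_exact₁ _ hT (n - 1) n (by omega)
  have h6 := h5.isZero_of_both_zeros h4 h3
  exact h6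

end Hom

section

variable {C : Type u} [Category.{v} C] [Preadditive C] [HasZeroObject C] [HasShift C ℤ]
  [∀ n : ℤ, (shiftFunctor C n).Additive] [Pretriangulated C] [MonoidalCategory C]
  [SymmetricCategory C] [TensorTriangulated C] {E : Type w} [Field E]

/-- The realisation of `X` lives in degrees `≤ n`. -/
def RLe (R : Realisation C E) (n : ℤ) (X : C) : Prop :=
  ∀ i : ℤ, n < i → IsZero (R.H.obj (X⟦i⟧))

/-- The realisation of `X` lives in degrees `≥ n`. -/
def RGe (R : Realisation C E) (n : ℤ) (X : C) : Prop :=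
  ∀ i : ℤ, i < n → IsZero (R.H.obj (X⟦i⟧))

variable {R : Realisation C E}

lemma RLe.iso {n : ℤ} {X Y : C} (h : RLe R n X) (e : X ≅ Y) : RLe R n Y := fun i hi =>
  (h i hi).of_iso (R.H.mapIso ((shiftFunctor C i).mapIso e.symm))

lemma RGe.iso {n : ℤ} {X Y : C} (h : RGe R n X) (e : X ≅ Y) : RGe R n Y := fun i hi =>
  (h i hi).of_iso (R.H.mapIso ((shiftFunctor C i).mapIso e.symm))

lemma RLe.shift {n : ℤ} {X : C} (h : RLe R n X) (a n' : ℤ) (ha : a + n' = n) :
    RLe R n' (X⟦a⟧) := fun i hi =>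
  (h (a + i) (by omega)).of_iso (R.H.mapIso ((shiftFunctorAdd C a i).app X).symm)

lemma RGe.shift {n : ℤ} {X : C} (h : RGe R n X) (a n' : ℤ) (ha : a + n' = n) :
    RGe R n' (X⟦a⟧) := fun i hi =>
  (h (a + i) (by omega)).of_iso (R.H.mapIso ((shiftFunctorAdd C a i).app X).symm)

lemma RLe.mono {n m : ℤ} {X : C} (h : RLe R n X) (hnm : n ≤ m) : RLe R m X :=
  fun i hi => h i (by omega)

lemma RGe.mono {n m : ℤ} {X : C} (h : RGe R n X) (hnm : m ≤ n) : RGe R m X :=
  fun i hi => h i (by omega)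

lemma RLe.of_isZero {X : C} (h : IsZero X) (n : ℤ) : RLe R n X := fun i _ =>
  R.H.map_isZero (isZero_shift h i)

lemma RGe.of_isZero {X : C} (h : IsZero X) (n : ℤ) : RGe R n X := fun i _ =>
  R.H.map_isZero (isZero_shift h i)

lemma deg_iff {X : C} {n : ℤ} : R.Deg X n ↔ RLe R n X ∧ RGe R n X := by
  constructor
  · intro h
    exact ⟨fun i hi => h i (by omega), fun i hi => h i (by omega)⟩
  · rintro ⟨h1, h2⟩ i hi
    rcases lt_or_gt_of_ne hi with h | h
    · exact h2 i h
    · exact h1 i h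

section Tri

variable {X Y Z : C} {f : X ⟶ Y} {g : Y ⟶ Z} {h : Z ⟶ X⟦(1 : ℤ)⟧}
  (hT : Triangle.mk f g h ∈ distTriang C)

include hT

lemma RLe.mid {n : ℤ} (hX : RLe R n X) (hZ : RLe R n Z) : RLe R n Y :=
  fun i hi => hz2 R.H hT i (hX i hi) (hZ i hi)

lemma RGe.mid {n : ℤ} (hX : RGe R n X) (hZ : RGe R n Z) : RGe R n Y :=
  fun i hi => hz2 R.H hT i (hX i hi) (hZ i hi)

end Tri

/-- A conservative realisation detects isomorphisms. -/
lemma isIso_of_conservative (hc : Conservative R) {X Y : C} (f : X ⟶ Y)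
    (hf : ∀ i : ℤ, IsIso (R.H.map (f⟦i⟧'))) : IsIso f := by
  obtain ⟨Z, g, h, hT⟩ := distinguished_cocone_triangle f
  apply isIso1_of_isZero3 hT
  apply hc
  intro i
  have h1 := hf i
  have h2 := hf (i + 1)
  exact hz3_of_iso R.H hT i inferInstance inferInstance

/-- A map from an object in degrees `≤ 0` to an object in degrees `≥ 1` vanishes, if its cone has
a truncation triangle. -/
theorem orth_core (hc : Conservative R) {A B Z A' B' : C} {f : A ⟶ B} {g : B ⟶ Z}
    {h : Z ⟶ A⟦(1 : ℤ)⟧} (hT : Triangle.mk f g h ∈ distTriang C) {u : A' ⟶ Z} {v : Z ⟶ B'}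
    {w : B' ⟶ A'⟦(1 : ℤ)⟧} (hT' : Triangle.mk u v w ∈ distTriang C) (hA' : RLe R (-1) A')
    (hB' : RGe R 0 B') (hA : RLe R 0 A) (hB : RGe R 1 B) : f = 0 := by
  have h1 : IsIso (u ≫ h) := by
    apply isIso_of_conservative hc
    intro i
    by_cases hi : i ≤ -1
    · have a1 : Mono (R.H.map (u⟦i⟧')) := hmono1 R.H hT' i (hB' _ (by omega))
      have a2 : Epi (R.H.map (u⟦i⟧')) := hepi1 R.H hT' i (hB' _ (by omega))
      have a3 : IsIso (R.H.map (u⟦i⟧')) := isIso_of_mono_of_epi _
      have b1 : Mono (R.H.map (h⟦i⟧')) := by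
        have := hmono2 R.H (rotD hT) i (hB _ (by omega))
        exact this
      have b2 : Epi (R.H.map (h⟦i⟧')) := by
        have := hepi2 R.H (rotD hT) i (hB _ (by omega))
        exact this
      have b3 : IsIso (R.H.map (h⟦i⟧')) := isIso_of_mono_of_epi _
      rw [Functor.map_comp, Functor.map_comp]
      infer_instance
    · have a1 : IsZero (R.H.obj (A'⟦i⟧)) := hA' _ (by omega)
      have a2 : IsZero (R.H.obj (A⟦(1 : ℤ)⟧⟦i⟧)) := hA.shift 1 (-1) (by omega) _ (by omega)
      exact ⟨0, a1.eq_of_src _ _, a2.eq_of_src _ _⟩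
  have h2 : f⟦(1 : ℤ)⟧' = 0 := by
    rw [← cancel_epi (u ≫ h), Category.assoc, comp31 hT, comp_zero, comp_zero]
  exact (shiftFunctor C (1 : ℤ)).map_injective (by rw [h2, Functor.map_zero])

/-- The t-structure defined by a conservative realisation with truncation triangles. -/
def tOf (ho : ∀ {A B : C}, RLe R 0 A → RGe R 1 B → ∀ f : A ⟶ B, f = 0)
    (ht : ∀ (X : C), ∃ (A B : C) (f : A ⟶ X) (g : X ⟶ B) (h : B ⟶ A⟦(1 : ℤ)⟧),
      Triangle.mk f g h ∈ distTriang C ∧ RLe R 0 A ∧ RGe R 1 B) : TStructure C where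
  le n := RLe R n
  ge n := RGe R n
  le_isClosedUnderIsomorphisms n := ⟨fun e h => h.iso e⟩
  ge_isClosedUnderIsomorphisms n := ⟨fun e h => h.iso e⟩
  le_shift n a n' h X hX := hX.shift a n' h
  ge_shift n a n' h X hX := hX.shift a n' h
  zero' X Y f hX hY := ho hX hY f
  le_zero_le X hX := RLe.mono hX (by omega)
  ge_one_le X hX := RGe.mono hX (by omega)
  exists_triangle_zero_one X := by
    obtain ⟨A, B, f, g, h, hT, hA, hB⟩ := ht X
    exact ⟨A, B, hA, hB, f, g, h, hT⟩

end

end Pool.Agent.T6helper6.MT
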