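import Pool.Agent.T6helper6.MT.Second

/-!
# Filtrations with pieces on which a second realisation is concentrated in the right degree
-/

set_option autoImplicit false
set_option linter.unusedSectionVars false
set_option linter.unusedSimpArgs false
set_option backward.isDefEq.respectTransparency false
set_option backward.defeqAttrib.useBackward true

open CategoryTheory Limits MonoidalCategory Pretriangulated Triangulated TensorProduct
namespace Pool.Agent.T6helper6.MT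
open Pool.Agent.Y116.MT Pool.Agent.V1178.MT
universe v u w

section

variable {C : Type u} [Category.{v} C] [Preadditive C] [HasZeroObject C] [HasShift C ℤ]
  [∀ n : ℤ, (shiftFunctor C n).Additive] [Pretriangulated C] [MonoidalCategory C]
  [SymmetricCategory C] [TensorTriangulated C]
  {E : Type w} [Field E] {E' : Type w} [Field E']

/-- A piece of degree `b`: an object concentrated in degree `b` such that the second realisation
has the right Betti number in degree `b`. -/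
structure Pc (t : TStructure C) (R : Realisation C E) (R' : Realisation C E') (b : ℤ) (X : C) :
    Prop where
  cn : Cn t b X
  eq : hd R' X b = hd R X b

/-- Filtrations with good pieces of increasing degrees. -/
inductive Fil (t : TStructure C) (R : Realisation C E) (R' : Realisation C E') : ℤ → C → Prop
  | zero {a : ℤ} {X : C} : IsZero X → Fil t R R' a X
  | step {a b : ℤ} {X K Z : C} {f : K ⟶ X} {g : X ⟶ Z} {h : Z ⟶ K⟦(1 : ℤ)⟧} : a ≤ b →
      Triangle.mk f g h ∈ distTriang C → Pc t R R' b K → Fil t R R' (b + 1) Z → Fil t R R' a X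

variable {t : TStructure C} {R : Realisation C E} {R' : Realisation C E'}

lemma Pc.shift {b : ℤ} {X : C} (h : Pc t R R' b X) (a c : ℤ) (hc : a + c = b) :
    Pc t R R' c (X⟦a⟧) := by
  refine ⟨h.cn.shift a c hc, ?_⟩
  rw [hd_shift, hd_shift, hc, h.eq]

lemma Cn.iso {b : ℤ} {X Y : C} (h : Cn t b X) (e : X ≅ Y) : Cn t b Y :=
  ⟨@TStructure.isLE_of_iso _ _ _ _ _ _ _ t _ _ e b h.1,
    @TStructure.isGE_of_iso _ _ _ _ _ _ _ t _ _ e b h.2⟩

lemma Pc.iso {b : ℤ} {X Y : C} (h : Pc t R R' b X) (e : X ≅ Y) : Pc t R R' b Y :=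
  ⟨h.cn.iso e, by rw [← hd_iso e, ← hd_iso e, h.eq]⟩

lemma Fil.mono {a a' : ℤ} {X : C} (h : Fil t R R' a X) (haa : a' ≤ a) : Fil t R R' a' X := by
  cases h with
  | zero h => exact Fil.zero h
  | step h1 h2 h3 h4 => exact Fil.step (haa.trans h1) h2 h3 h4

lemma Fil.isGE {a : ℤ} {X : C} (h : Fil t R R' a X) : t.IsGE X a := by
  induction h with
  | zero h => exact t.isGE_of_isZero h _
  | step h1 h2 h3 h4 ih =>
    exact isGE2 h2 (@TStructure.isGE_of_ge _ _ _ _ _ _ _ t _ _ _ h1 h3.cn.2)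
      (@TStructure.isGE_of_ge _ _ _ _ _ _ _ t _ _ _ (by omega) ih)

lemma dist_iso_mid {X Y Y' Z : C} {f : X ⟶ Y} {g : Y ⟶ Z} {h : Z ⟶ X⟦(1 : ℤ)⟧}
    (hT : Triangle.mk f g h ∈ distTriang C) (e : Y ≅ Y') :
    Triangle.mk (f ≫ e.hom) (e.inv ≫ g) h ∈ distTriang C := by
  refine isomorphic_distinguished _ hT _ ?_
  refine Triangle.isoMk _ _ (Iso.refl _) e.symm (Iso.refl _) ?_ ?_ ?_
  all_goals simp

lemma Fil.iso {a : ℤ} {X Y : C} (h : Fil t R R' a X) (e : X ≅ Y) : Fil t R R' a Y := by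
  cases h with
  | zero h => exact Fil.zero (h.of_iso e.symm)
  | step h1 h2 h3 h4 => exact Fil.step h1 (dist_iso_mid h2 e) h3 h4

lemma dist_isos {X Y Z X' Y' Z' : C} {f : X ⟶ Y} {g : Y ⟶ Z} {h : Z ⟶ X⟦(1 : ℤ)⟧}
    (hT : Triangle.mk f g h ∈ distTriang C) (a : X ≅ X') (b : Y ≅ Y') (c : Z ≅ Z') :
    Triangle.mk (a.inv ≫ f ≫ b.hom) (b.inv ≫ g ≫ c.hom) (c.inv ≫ h ≫ a.hom⟦(1 : ℤ)⟧') ∈
      distTriang C := by
  refine isomorphic_distinguished _ hT _ ?_
  refine Triangle.isoMk _ _ a.symm b.symm c.symm ?_ ?_ ?_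
  · simp
  · simp
  · simp only [Triangle.mk_mor₃, Category.assoc, Iso.symm_hom]
    rw [← Functor.map_comp, Iso.hom_inv_id, CategoryTheory.Functor.map_id, Category.comp_id]

/-- A shifted triangle. -/
lemma dist_shift {X Y Z : C} {f : X ⟶ Y} {g : Y ⟶ Z} {h : Z ⟶ X⟦(1 : ℤ)⟧}
    (hT : Triangle.mk f g h ∈ distTriang C) (n : ℤ) :
    ∃ (f' : X⟦n⟧ ⟶ Y⟦n⟧) (g' : Y⟦n⟧ ⟶ Z⟦n⟧) (h' : Z⟦n⟧ ⟶ X⟦n⟧⟦(1 : ℤ)⟧),
      Triangle.mk f' g' h' ∈ distTriang C :=
  ⟨_, _, _, Triangle.shift_distinguished _ hT n⟩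

lemma Fil.shift {a : ℤ} {X : C} (h : Fil t R R' a X) (n : ℤ) :
    ∀ c : ℤ, n + c = a → Fil t R R' c (X⟦n⟧) := by
  induction h with
  | zero h => intro c _; exact Fil.zero (isZero_shift h n)
  | @step a b X K Z f g h h1 h2 h3 h4 ih =>
    intro c hc
    obtain ⟨f', g', h', hT⟩ := dist_shift h2 n
    exact Fil.step (b := b - n) (by omega) hT (h3.shift n (b - n) (by omega))
      (ih (b - n + 1) (by omega))

end

section

variable {C : Type u} [Category.{v} C] [Preadditive C] [HasZeroObject C] [HasShift C ℤ]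
  [∀ n : ℤ, (shiftFunctor C n).Additive] [Pretriangulated C] [MonoidalCategory C]
  [SymmetricCategory C] [TensorTriangulated C] [MonoidalPreadditive C] [RightRigidCategory C]
  [IsTriangulated C]
  {E : Type w} [Field E] {R : Realisation C E} {E' : Type w} [Field E'] {R' : Realisation C E'}
  {t : TStructure C} (ht : TensorCompat t) (he : TExact t R) (hu : Hrt t (𝟙_ C))
  (hid : ∀ e : 𝟙_ C ⟶ 𝟙_ C, e ≫ e = e → e = 0 ∨ e = 𝟙 _)

include ht he hu hid

lemma Pc.deg {b : ℤ} {X : C} (h : Pc t R R' b X) : R'.Deg X b := by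
  apply deg_of_tot
  rw [h.eq]
  exact tot_le_cn ht he hu hid h.cn

section Tri

variable {X Y Z : C} {f : X ⟶ Y} {g : Y ⟶ Z} {h : Z ⟶ X⟦(1 : ℤ)⟧}
  (hT : Triangle.mk f g h ∈ distTriang C) {b : ℤ}

include hT

omit ht hu hid in
lemma hd_cn (hX : Cn t b X) (hZ : Cn t b Z) : hd R Y b = hd R X b + hd R Z b :=
  hd_add hT b (Or.inl ((hZ.deg he) _ (by omega))) (Or.inl ((hX.deg he) _ (by omega)))

/-- Subobjects and quotients of good pieces are good. -/
lemma Pc.sub (hX : Cn t b X) (hY : Pc t R R' b Y) (hZ : Cn t b Z) :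
    Pc t R R' b X ∧ Pc t R R' b Z := by
  have h1 := hd_cn he hT hX hZ
  have h2 := hY.eq
  have h3 := hd_mid (R := R') hT b
  have h4 := tot_le_cn (R' := R') ht he hu hid hX
  have h5 := tot_le_cn (R' := R') ht he hu hid hZ
  have h6 := hd_le_tot (R := R') X b
  have h7 := hd_le_tot (R := R') Z b
  exact ⟨⟨hX, by omega⟩, ⟨hZ, by omega⟩⟩

/-- Extensions of good pieces are good. -/
lemma Pc.ext (hX : Pc t R R' b X) (hZ : Pc t R R' b Z) : Pc t R R' b Y := by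
  refine ⟨⟨isLE2 hT hX.cn.1 hZ.cn.1, isGE2 hT hX.cn.2 hZ.cn.2⟩, ?_⟩
  rw [hd_cn he hT hX.cn hZ.cn, hd_add (R := R') hT b
    (Or.inl ((hZ.deg ht he hu hid) _ (by omega))) (Or.inl ((hX.deg ht he hu hid) _ (by omega))),
    hX.eq, hZ.eq]

/-- The kernel and the cokernel of a map of good pieces are good: the cone `Z` of `f` has a
truncation with good pieces. -/
lemma Pc.cone (hX : Pc t R R' b X) (hY : Pc t R R' b Y) :
    ∃ (N Q : C) (u : N ⟶ Z) (v : Z ⟶ Q) (w : Q ⟶ N⟦(1 : ℤ)⟧),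
      Triangle.mk u v w ∈ distTriang C ∧ Pc t R R' (b - 1) N ∧ Pc t R R' b Q := by
  obtain ⟨N, Q, hN, hQ, u, v, w, hT'⟩ := t.exists_triangle Z (b - 1) b (by omega)
  have hN1 : t.IsLE N (b - 1) := ⟨hN⟩
  have hQ1 : t.IsGE Q b := ⟨hQ⟩
  have hZ1 : t.IsLE Z b :=
    isLE3 hT (@TStructure.isLE_of_le _ _ _ _ _ _ _ t _ b (b + 1) (by omega) hX.cn.1) hY.cn.1
  have hZ2 : t.IsGE Z (b - 1) :=
    isGE3 hT (@TStructure.isGE_of_ge _ _ _ _ _ _ _ t _ (b - 1 + 1) b (by omega) hX.cn.2)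
      (@TStructure.isGE_of_ge _ _ _ _ _ _ _ t _ (b - 1) b (by omega) hY.cn.2)
  have hN2 : t.IsGE N (b - 1) :=
    isGE1 hT' hZ2 (@TStructure.isGE_of_ge _ _ _ _ _ _ _ t _ (b - 1 - 1) b (by omega) hQ1)
  have hQ2 : t.IsLE Q b :=
    isLE3 hT' (@TStructure.isLE_of_le _ _ _ _ _ _ _ t _ (b - 1) (b + 1) (by omega) hN1) hZ1
  obtain ⟨J, p, d, hJ⟩ := distinguished_cocone_triangle (g ≫ v)
  have O := someOctahedron (rfl : g ≫ v = g ≫ v) (rotD hT) (rotD hT') hJ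
  have hX1 : Cn t (b - 1) (X⟦(1 : ℤ)⟧) := hX.cn.shift 1 (b - 1) (by omega)
  have hJ1 : t.IsGE J (b - 1) := isGE3 hJ
    (@TStructure.isGE_of_ge _ _ _ _ _ _ _ t _ (b - 1 + 1) b (by omega) hY.cn.2)
    (@TStructure.isGE_of_ge _ _ _ _ _ _ _ t _ (b - 1) b (by omega) hQ1)
  have hN3 : Cn t (b - 2) (N⟦(1 : ℤ)⟧) := Cn.shift (b := b - 1) ⟨hN1, hN2⟩ 1 (b - 2) (by omega)
  have hJ2 : t.IsLE J (b - 1) := isLE2 O.mem hX1.1
    (@TStructure.isLE_of_le _ _ _ _ _ _ _ t _ (b - 2) (b - 1) (by omega) hN3.1)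
  refine ⟨N, Q, u, v, w, hT', ?_, ?_⟩
  · have h1 := inv_rot_of_distTriang _ O.mem
    have h2 : Cn t (b - 1) (N⟦(1 : ℤ)⟧⟦(-1 : ℤ)⟧) := hN3.shift (-1) (b - 1) (by omega)
    have h3 := (Pc.sub ht he hu hid h1 h2 (hX.shift 1 (b - 1) (by omega)) ⟨hJ2, hJ1⟩).1
    exact h3.iso ((shiftEquiv C (1 : ℤ)).unitIso.symm.app N)
  · have h1 := inv_rot_of_distTriang _ hJ
    have h2 : Cn t b (J⟦(-1 : ℤ)⟧) := Cn.shift (b := b - 1) ⟨hJ2, hJ1⟩ (-1) b (by omega)
    exact (Pc.sub ht he hu hid h1 h2 hY ⟨hQ2, hQ1⟩).2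

end Tri

/-- Insertion of a good piece below a filtered object. -/
lemma Fil.insert {b : ℤ} {Z : C} (hZ : Fil t R R' b Z) : ∀ {a c : ℤ} {K Y : C} {f : K ⟶ Y}
    {g : Y ⟶ Z} {h : Z ⟶ K⟦(1 : ℤ)⟧}, a ≤ b → a ≤ c → Pc t R R' c K →
      Triangle.mk f g h ∈ distTriang C → Fil t R R' a Y := by
  induction hZ with
  | zero hz =>
    intro a c K Y f g h _ hac hK hT
    exact Fil.step hac hT hK (Fil.zero hz)
  | @step b d Z L Z' u v w hbd hL pL hZ' ih =>
    intro a c K Y f g h hab hac hK hT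
    by_cases hcd : c < d
    · exact Fil.step hac hT hK (Fil.step (by omega) hL pL hZ')
    obtain ⟨W, x, y, hW⟩ := distinguished_cocone_triangle₁ (g ≫ v)
    have O := someOctahedron (rfl : g ≫ v = g ≫ v) (rotD hT) (rotD hL) (rotD hW)
    obtain ⟨f1, g1, h1, hKWL⟩ : ∃ (f1 : K ⟶ W) (g1 : W ⟶ L) (h1 : L ⟶ K⟦(1 : ℤ)⟧),
        Triangle.mk f1 g1 h1 ∈ distTriang C := by
      obtain ⟨f2, g2, h2, hT2⟩ := dist_shift O.mem (-1)
      exact ⟨_, _, _, dist_isos hT2 ((shiftEquiv C (1 : ℤ)).unitIso.symm.app K)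
        ((shiftEquiv C (1 : ℤ)).unitIso.symm.app W) ((shiftEquiv C (1 : ℤ)).unitIso.symm.app L)⟩
    by_cases hcd' : c = d
    · subst hcd'
      exact Fil.step hac hW (Pc.ext ht he hu hid hKWL hK pL) hZ'
    obtain ⟨L', K', c', f2, g2, h2, hT2, pL', pK', hc'⟩ : ∃ (L' K' : C) (c' : ℤ) (f2 : L' ⟶ W)
        (g2 : W ⟶ K') (h2 : K' ⟶ L'⟦(1 : ℤ)⟧), Triangle.mk f2 g2 h2 ∈ distTriang C ∧
          Pc t R R' d L' ∧ Pc t R R' c' K' ∧ d + 1 ≤ c' := by
      by_cases hcd2 : c = d + 1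
      · subst hcd2
        have h3 := rotD (rotD hKWL)
        obtain ⟨N, Q, u1, v1, w1, hNQ, pN, pQ⟩ :=
          Pc.cone ht he hu hid h3 pL (hK.shift 1 d (by omega))
        obtain ⟨f2, g2, h2, hT2⟩ := dist_shift hNQ (-1)
        exact ⟨N⟦(-1 : ℤ)⟧, Q⟦(-1 : ℤ)⟧, d + 1, _, _, _, dist_iso_mid hT2
          ((shiftEquiv C (1 : ℤ)).unitIso.symm.app W), pN.shift (-1) d (by omega),
          pQ.shift (-1) (d + 1) (by omega), le_rfl⟩
      · obtain ⟨A, B, hA, hB, u1, v1, w1, hAB⟩ := t.exists_triangle W d (d + 1) rfl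
        have hA1 : t.IsLE A d := ⟨hA⟩
        have hB1 : t.IsGE B (d + 1) := ⟨hB⟩
        obtain ⟨U, p1, q1, hU⟩ := distinguished_cocone_triangle (u1 ≫ g1)
        have O1 := someOctahedron (rfl : u1 ≫ g1 = u1 ≫ g1) hAB (rotD hKWL) hU
        have hK1 : Cn t (c - 1) (K⟦(1 : ℤ)⟧) := hK.cn.shift 1 (c - 1) (by omega)
        have hU1 : t.IsGE U (d + 1) := isGE2 O1.mem hB1
          (@TStructure.isGE_of_ge _ _ _ _ _ _ _ t _ (d + 1) (c - 1) (by omega) hK1.2)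
        have hU2 : t.IsLE U d := isLE3 hU
          (@TStructure.isLE_of_le _ _ _ _ _ _ _ t _ d (d + 1) (by omega) hA1) pL.cn.1
        have hU3 : IsZero U := t.isZero U d (d + 1) (by omega)
        have e1 := isIso1_of_isZero3 hU hU3
        have e2 := isIso2_of_isZero1 (rotD O1.mem) hU3
        refine ⟨A, B, c, u1, v1, w1, hAB, pL.iso (asIso (u1 ≫ g1)).symm, ?_, by omega⟩
        have h4 : Pc t R R' (c - 1) (B⟦(1 : ℤ)⟧) := (hK.shift 1 (c - 1) (by omega)).iso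
          (@asIso _ _ _ _ _ e2)
        exact (h4.shift (-1) c (by omega)).iso ((shiftEquiv C (1 : ℤ)).unitIso.symm.app B)
    obtain ⟨Y', p, d', hY'⟩ := distinguished_cocone_triangle (f2 ≫ x)
    have O2 := someOctahedron (rfl : f2 ≫ x = f2 ≫ x) hT2 hW hY'
    exact Fil.step (hab.trans hbd) hY' pL' (ih le_rfl hc' pK' O2.mem)

/-- Extensions of filtered objects. -/
lemma Fil.ext {a : ℤ} {X : C} (hX : Fil t R R' a X) : ∀ {a' m : ℤ} {Y Z : C} {f : X ⟶ Y}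
    {g : Y ⟶ Z} {h : Z ⟶ X⟦(1 : ℤ)⟧}, m ≤ a → m ≤ a' → Triangle.mk f g h ∈ distTriang C →
      Fil t R R' a' Z → Fil t R R' m Y := by
  induction hX with
  | zero hX =>
    intro a' m Y Z f g h _ hm hT hZ
    have h1 := isIso2_of_isZero1 hT hX
    exact (hZ.mono hm).iso (asIso g).symm
  | @step a b X K X' u v w hab hKX pK hX' ih =>
    intro a' m Y Z f g h hma hma' hT hZ
    obtain ⟨Y', p, d, hY'⟩ := distinguished_cocone_triangle (u ≫ f)
    have O := someOctahedron (rfl : u ≫ f = u ≫ f) hKX hT hY'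
    have h1 : Fil t R R' m Y' := ih (by omega) hma' O.mem hZ
    exact Fil.insert ht he hu hid h1 le_rfl (by omega) pK hY'

/-- Cones of morphisms of filtered objects. -/
lemma Fil.cone {a a' : ℤ} {X Y Z : C} {f : X ⟶ Y} {g : Y ⟶ Z} {h : Z ⟶ X⟦(1 : ℤ)⟧}
    (hT : Triangle.mk f g h ∈ distTriang C) (hX : Fil t R R' a X) (hY : Fil t R R' a' Y) :
    ∃ m, Fil t R R' m Z :=
  ⟨min a' (a - 1), Fil.ext ht he hu hid hY (min_le_left _ _) (min_le_right _ _) (rotD hT)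
    (hX.shift 1 (a - 1) (by omega))⟩

omit ht hu hid he in
lemma trunc_unique {A X B : C} {b : ℤ} {u : A ⟶ X} {v : X ⟶ B} {w : B ⟶ A⟦(1 : ℤ)⟧}
    (hT : Triangle.mk u v w ∈ distTriang C) (hB : t.IsGE B (b + 1)) {A' : C} (hA' : t.IsLE A' b)
    (φ : A' ⟶ A) (h : φ ≫ u = 0) : φ = 0 := by
  obtain ⟨l, hl⟩ := ce1 hT (φ⟦(1 : ℤ)⟧') (by rw [← Functor.map_comp, h, Functor.map_zero])
  have h1 : t.IsLE (A'⟦(1 : ℤ)⟧) (b - 1) := t.isLE_shift A' b 1 (b - 1)
  have h2 : l = 0 := t.zero_of_isLE_of_isGE _ (b - 1) (b + 1) (by omega) h1 hB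
  apply (shiftFunctor C (1 : ℤ)).map_injective
  rw [hl, h2, zero_comp, Functor.map_zero]

/-- Direct summands of good pieces. -/
lemma Pc.retract {b : ℤ} {X Y : C} (hX : Pc t R R' b X) (i : Y ⟶ X) (r : X ⟶ Y)
    (hir : i ≫ r = 𝟙 _) : Pc t R R' b Y := by
  obtain ⟨K, p, d, hT⟩ := distinguished_cocone_triangle i
  have hd0 : d = 0 := by
    have h1 : d = (d ≫ i⟦(1 : ℤ)⟧') ≫ r⟦(1 : ℤ)⟧' := by
      rw [Category.assoc, ← Functor.map_comp, hir, CategoryTheory.Functor.map_id,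
        Category.comp_id]
    rw [h1, comp31 hT, zero_comp]
  obtain ⟨s, hs⟩ := split3' hT hd0
  exact (Pc.sub ht he hu hid hT ⟨isLE_retract hX.cn.1 i r hir, isGE_retract hX.cn.2 i r hir⟩ hX
    ⟨isLE_retract hX.cn.1 s p hs, isGE_retract hX.cn.2 s p hs⟩).1

/-- Direct summands of filtered objects. -/
lemma Fil.retract {a : ℤ} {X : C} (hX : Fil t R R' a X) : ∀ {Y : C} (i : Y ⟶ X) (r : X ⟶ Y),
    i ≫ r = 𝟙 _ → Fil t R R' a Y := by
  induction hX with
  | zero hX =>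
    intro Y i r hir
    exact Fil.zero (isZero_of_retract hX i r hir)
  | @step a b X K X' f g h hab hKX pK hX' ih =>
    intro Y i r hir
    obtain ⟨A, B, hA, hB, u, v, w, hT⟩ := t.exists_triangle Y b (b + 1) rfl
    have hA1 : t.IsLE A b := ⟨hA⟩
    have hB1 : t.IsGE B (b + 1) := ⟨hB⟩
    have hX'1 : t.IsGE X' (b + 1) := hX'.isGE
    obtain ⟨i1, hi1⟩ := ce2 hKX (u ≫ i)
      (t.zero_of_isLE_of_isGE _ b (b + 1) (by omega) hA1 hX'1)
    obtain ⟨r1, hr1⟩ := ce2 hT (f ≫ r)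
      (t.zero_of_isLE_of_isGE _ b (b + 1) (by omega) pK.cn.1 hB1)
    have h1 : i1 ≫ r1 = 𝟙 A := by
      rw [← sub_eq_zero]
      apply trunc_unique hT hB1 hA1
      rw [Preadditive.sub_comp, Category.assoc, ← hr1, ← Category.assoc, ← hi1, Category.assoc,
        hir, Category.comp_id, Category.id_comp, sub_self]
    obtain ⟨i2, hi2⟩ := ye2 hT (i ≫ g) (by
      rw [← Category.assoc, hi1, Category.assoc, comp12 hKX, comp_zero])
    obtain ⟨r2, hr2⟩ := ye2 hKX (r ≫ v) (by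
      rw [← Category.assoc, hr1, Category.assoc, comp12 hT, comp_zero])
    have h2 : i2 ≫ r2 = 𝟙 B := by
      rw [← sub_eq_zero]
      obtain ⟨l, hl⟩ := ye3 hT (i2 ≫ r2 - 𝟙 B) (by
        rw [Preadditive.comp_sub, ← Category.assoc, ← hi2, Category.assoc, ← hr2,
          ← Category.assoc, hir, Category.id_comp, Category.comp_id, sub_self])
      have h3 : t.IsLE (A⟦(1 : ℤ)⟧) (b - 1) := t.isLE_shift A b 1 (b - 1)
      rw [hl, t.zero_of_isLE_of_isGE l (b - 1) (b + 1) (by omega) h3 hB1, comp_zero]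
    exact Fil.step hab hT (Pc.retract ht he hu hid pK i1 r1 h1) (ih i2 r2 h2)

/-- The second realisation is exact on filtered objects. -/
lemma Fil.exact_le {a : ℤ} {X : C} (hX : Fil t R R' a X) : ∀ n : ℤ, t.IsLE X n → ∀ i : ℤ, n < i →
    IsZero (R'.H.obj (X⟦i⟧)) := by
  induction hX with
  | zero hX => intro n _ i _; exact R'.H.map_isZero (isZero_shift hX i)
  | @step a b X K Z f g h hab hT pK hZ ih =>
    intro n hn i hi
    by_cases hbn : b ≤ n
    · have h1 : t.IsLE Z n := isLE3 hT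
        (@TStructure.isLE_of_le _ _ _ _ _ _ _ t _ b (n + 1) (by omega) pK.cn.1) hn
      exact hz2 R'.H hT i (pK.deg ht he hu hid i (by omega)) (ih n h1 i hi)
    · have h1 : t.IsGE X b := isGE2 hT pK.cn.2
        (@TStructure.isGE_of_ge _ _ _ _ _ _ _ t _ b (b + 1) (by omega) hZ.isGE)
      have h2 : IsZero X := @TStructure.isZero _ _ _ _ _ _ _ t X n b (by omega) hn h1
      exact R'.H.map_isZero (isZero_shift h2 i)

lemma Fil.exact_ge {a : ℤ} {X : C} (hX : Fil t R R' a X) : ∀ n : ℤ, t.IsGE X n → ∀ i : ℤ, i < n →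
    IsZero (R'.H.obj (X⟦i⟧)) := by
  induction hX with
  | zero hX => intro n _ i _; exact R'.H.map_isZero (isZero_shift hX i)
  | @step a b X K Z f g h hab hT pK hZ ih =>
    intro n hn i hi
    by_cases hbn : n ≤ b
    · have h1 : t.IsGE Z n := @TStructure.isGE_of_ge _ _ _ _ _ _ _ t _ n (b + 1) (by omega) hZ.isGE
      exact hz2 R'.H hT i (pK.deg ht he hu hid i (by omega)) (ih n h1 i hi)
    · have h1 : t.IsGE K (b + 1) := isGE1 hT
        (@TStructure.isGE_of_ge _ _ _ _ _ _ _ t _ (b + 1) n (by omega) hn)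
        (@TStructure.isGE_of_ge _ _ _ _ _ _ _ t _ (b + 1 - 1) (b + 1) (by omega) hZ.isGE)
      have h2 : IsZero K := @TStructure.isZero _ _ _ _ _ _ _ t K b (b + 1) (by omega) pK.cn.1 h1
      have h3 := isIso2_of_isZero1 hT h2
      have h4 : t.IsGE Z n := @TStructure.isGE_of_iso _ _ _ _ _ _ _ t _ _ (asIso g) n hn
      exact (ih n h4 i hi).of_iso (R'.H.mapIso ((shiftFunctor C i).mapIso (asIso g)))

end

end Pool.Agent.T6helper6.MT
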