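import Pool.Agent.T6helper6.MT.Coh

/-!
# Objects with the hard Lefschetz theorem and equal Betti numbers
-/

set_option autoImplicit false
set_option linter.unusedSectionVars false
set_option linter.unusedSimpArgs false
set_option backward.isDefEq.respectTransparency false
set_option backward.defeqAttrib.useBackward true

open CategoryTheory Limits MonoidalCategory Pretriangulated Triangulated TensorProduct ZeroObject
namespace Pool.Agent.T6helper6.MT
open Pool.Agent.Y116.MT Pool.Agent.V1178.MT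
universe v u w

section Numeric

/-- The first moment of a row is symmetric. -/
lemma moment_symm (c : ℤ → ℤ → ℕ) (e : ℤ)
    (h3 : ∀ (k : ℕ) (j : ℤ), c (e - k) j = c (e + k) (j + 2 * k)) (n : ℤ) :
    ∑ᶠ j : ℤ, (j - (2 * e - n)) * (c (2 * e - n) j : ℤ) = ∑ᶠ j : ℤ, (j - n) * (c n j : ℤ) := by
  have key : ∀ k : ℕ, ∑ᶠ j : ℤ, (j - (e + k)) * (c (e + k) j : ℤ) =
      ∑ᶠ j : ℤ, (j - (e - k)) * (c (e - k) j : ℤ) := by
    intro k
    rw [← finsum_comp_equiv (Equiv.addRight (2 * (k : ℤ)))]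
    apply finsum_congr
    intro j
    rw [h3]
    simp only [Equiv.coe_addRight]
    ring
  rcases le_total n e with h | h
  · obtain ⟨k, hk⟩ := Int.eq_ofNat_of_zero_le (sub_nonneg.2 h)
    have h1 : 2 * e - n = e + k := by omega
    have h2 : n = e - k := by omega
    rw [h1, h2]
    exact key k
  · obtain ⟨k, hk⟩ := Int.eq_ofNat_of_zero_le (sub_nonneg.2 h)
    have h1 : 2 * e - n = e - k := by omega
    have h2 : n = e + k := by omega
    rw [h1, h2]
    exact (key k).symm

/-- The second moment argument. -/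
lemma numeric (b : ℤ → ℕ) (c : ℤ → ℤ → ℕ) (e : ℤ) (S : Finset ℤ) (hS : ∀ n, n ∈ S → 2 * e - n ∈ S)
    (h0 : ∀ n j, c n j ≠ 0 → n ∈ S ∧ j ∈ S) (h1 : ∀ n, ∑ j ∈ S, c n j ≤ b n)
    (h2 : ∀ j, b j ≤ ∑ n ∈ S, c n j)
    (h3 : ∀ (k : ℕ) (j : ℤ), c (e - k) j = c (e + k) (j + 2 * k)) (n : ℤ) : c n n = b n := by
  have hs : ∑ j ∈ S, b j ≤ ∑ n ∈ S, ∑ j ∈ S, c n j := by
    rw [Finset.sum_comm]
    exact Finset.sum_le_sum (fun j _ => h2 j)
  have hs' : ∑ n ∈ S, ∑ j ∈ S, c n j ≤ ∑ j ∈ S, b j := Finset.sum_le_sum (fun n _ => h1 n)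
  have E1 : ∀ n ∈ S, ∑ j ∈ S, c n j = b n :=
    (Finset.sum_eq_sum_iff_of_le (fun n _ => h1 n)).1 (le_antisymm hs' hs)
  have E2 : ∀ j ∈ S, b j = ∑ n ∈ S, c n j := by
    apply (Finset.sum_eq_sum_iff_of_le (fun j _ => h2 j)).1
    rw [Finset.sum_comm]
    exact le_antisymm hs hs'
  have F1 : ∑ n ∈ S, ∑ j ∈ S, ((j - e) ^ 2 - (n - e) ^ 2) * (c n j : ℤ) = 0 := by
    have a1 : ∑ n ∈ S, ∑ j ∈ S, (j - e) ^ 2 * (c n j : ℤ) = ∑ j ∈ S, (j - e) ^ 2 * (b j : ℤ) := by
      rw [Finset.sum_comm]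
      refine Finset.sum_congr rfl (fun j hj => ?_)
      rw [E2 j hj, ← Finset.mul_sum]
      push_cast
      rfl
    have a2 : ∑ n ∈ S, ∑ j ∈ S, (n - e) ^ 2 * (c n j : ℤ) = ∑ j ∈ S, (j - e) ^ 2 * (b j : ℤ) := by
      refine Finset.sum_congr rfl (fun n hn => ?_)
      rw [← E1 n hn, ← Finset.mul_sum]
      push_cast
      rfl
    simp_rw [sub_mul, Finset.sum_sub_distrib]
    rw [a1, a2, sub_self]
  let g : ℤ → ℤ := fun n => ∑ j ∈ S, (j - n) * (c n j : ℤ)
  have hg : ∀ n, g n = ∑ᶠ j : ℤ, (j - n) * (c n j : ℤ) := by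
    intro n
    symm
    apply finsum_eq_sum_of_support_subset
    intro j hj
    simp only [Function.mem_support, ne_eq, mul_eq_zero, Nat.cast_eq_zero, not_or] at hj
    exact (h0 n j hj.2).2
  have hg2 : ∀ n, g (2 * e - n) = g n := by
    intro n
    rw [hg, hg, moment_symm c e h3]
  have F2 : ∑ n ∈ S, (n - e) * g n = 0 := by
    have a1 : ∑ n ∈ S, (n - e) * g n = ∑ n ∈ S, (2 * e - n - e) * g (2 * e - n) := by
      refine Finset.sum_nbij' (fun n => 2 * e - n) (fun n => 2 * e - n) (fun n hn => hS n hn)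
        (fun n hn => hS n hn) (fun n _ => by ring) (fun n _ => by ring) (fun n _ => ?_)
      rw [show 2 * e - (2 * e - n) = n by ring]
    have a2 : ∑ n ∈ S, (2 * e - n - e) * g (2 * e - n) = - ∑ n ∈ S, (n - e) * g n := by
      rw [← Finset.sum_neg_distrib]
      refine Finset.sum_congr rfl (fun n _ => ?_)
      rw [hg2]
      ring
    linarith
  have F3 : ∑ n ∈ S, ∑ j ∈ S, (j - n) ^ 2 * (c n j : ℤ) = 0 := by
    have a1 : ∑ n ∈ S, ∑ j ∈ S, ((j - e) ^ 2 - (n - e) ^ 2) * (c n j : ℤ) =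
        ∑ n ∈ S, ∑ j ∈ S, (j - n) ^ 2 * (c n j : ℤ) + 2 * ∑ n ∈ S, (n - e) * g n := by
      rw [Finset.mul_sum, ← Finset.sum_add_distrib]
      refine Finset.sum_congr rfl (fun n _ => ?_)
      simp only [g]
      rw [Finset.mul_sum, Finset.mul_sum, ← Finset.sum_add_distrib]
      refine Finset.sum_congr rfl (fun j _ => ?_)
      ring
    rw [F1, F2] at a1
    linarith
  have F4 : ∀ n j, j ≠ n → c n j = 0 := by
    intro n j hj
    by_contra hc
    obtain ⟨hn, hj'⟩ := h0 n j hc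
    have a1 := (Finset.sum_eq_zero_iff_of_nonneg (fun n _ => Finset.sum_nonneg (fun j _ =>
      mul_nonneg (sq_nonneg _) (Int.natCast_nonneg _)))).1 F3 n hn
    have a2 := (Finset.sum_eq_zero_iff_of_nonneg (fun j _ =>
      mul_nonneg (sq_nonneg _) (Int.natCast_nonneg _))).1 a1 j hj'
    rw [mul_eq_zero] at a2
    rcases a2 with a2 | a2
    · exact hj (by
        have := pow_eq_zero_iff (two_ne_zero) |>.1 a2
        omega)
    · exact hc (by exact_mod_cast a2)
  by_cases hn : n ∈ S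
  · rw [← E1 n hn, Finset.sum_eq_single n (fun j _ hj => F4 n j hj) (fun h => absurd hn h)]
  · have a1 : c n n = 0 := by
      by_contra h
      exact hn (h0 n n h).1
    have a2 : b n = 0 := by
      have := h2 n
      rw [Finset.sum_eq_zero (fun m _ => ?_)] at this
      · omega
      · by_contra h
        exact hn (h0 m n h).2
    rw [a1, a2]

end Numeric

section

variable {C : Type u} [Category.{v} C] [Preadditive C] [HasZeroObject C] [HasShift C ℤ]
  [∀ n : ℤ, (shiftFunctor C n).Additive] [Pretriangulated C] [MonoidalCategory C]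
  [SymmetricCategory C] [TensorTriangulated C] [MonoidalPreadditive C] [RightRigidCategory C]
  [IsTriangulated C]
  {E : Type w} [Field E] {R : Realisation C E} {E' : Type w} [Field E'] {R' : Realisation C E'}
  {t : TStructure C} (he : TExact t R) (hc : Conservative R)

section Step

include he hc

lemma hd_le_sum (k : ℕ) : ∀ (X : C) (a b : ℤ), b - a < k → t.IsGE X a → t.IsLE X b → ∀ j : ℤ,
    hd R' X j ≤ ∑ n ∈ Finset.Icc a b, hd R' (Hob t X n) j := by
  induction k with
  | zero =>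
    intro X a b hab h1 h2 j
    have h3 : IsZero X := t.isZero X b a (by omega)
    rw [hd_eq_zero.2 (R'.H.map_isZero (isZero_shift h3 j))]
    exact Nat.zero_le _
  | succ k ih =>
    intro X a b hab h1 h2 j
    by_cases hba : b < a
    · have h3 : IsZero X := t.isZero X b a (by omega)
      rw [hd_eq_zero.2 (R'.H.map_isZero (isZero_shift h3 j))]
      exact Nat.zero_le _
    obtain ⟨A, B, hA, hB, f, g, h, hT⟩ := t.exists_triangle X a (a + 1) rfl
    have hA1 : t.IsLE A a := ⟨hA⟩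
    have hB1 : t.IsGE B (a + 1) := ⟨hB⟩
    have hA2 : t.IsGE A a := isGE1 hT h1 (t.isGE_of_ge B (a - 1) (a + 1))
    have hB2 : t.IsLE B b := isLE3 hT (t.isLE_of_le A a (b + 1) (by omega)) h2
    obtain ⟨e1⟩ := (isH_hob (t := t) X a).unique he hc (isH_low hT ⟨hA1, hA2⟩ hB1)
    have h4 := ih B (a + 1) b (by push_cast at hab; omega) hB1 hB2 j
    have h5 : ∑ n ∈ Finset.Icc (a + 1) b, hd R' (Hob t B n) j =
        ∑ n ∈ Finset.Icc (a + 1) b, hd R' (Hob t X n) j := by
      refine Finset.sum_congr rfl (fun n hn => ?_)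
      rw [Finset.mem_Icc] at hn
      obtain ⟨e2⟩ := (isH_hob (t := t) X n).trunc he hc hT hA1 hn.1 (isH_hob (t := t) B n)
      rw [hd_iso e2]
    have h6 : Finset.Icc a b = insert a (Finset.Icc (a + 1) b) := by
      ext n
      rw [Finset.mem_insert, Finset.mem_Icc, Finset.mem_Icc]
      omega
    rw [h6, Finset.sum_insert (by rw [Finset.mem_Icc]; omega), hd_iso e1, ← h5]
    exact (hd_mid hT j).trans (Nat.add_le_add_left h4 _)

lemma fil_of_pc (k : ℕ) : ∀ (X : C) (a b : ℤ), b - a < k → t.IsGE X a → t.IsLE X b →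
    (∀ n, Pc t R R' n (Hob t X n)) → Fil t R R' a X := by
  induction k with
  | zero =>
    intro X a b hab h1 h2 _
    exact Fil.zero (t.isZero X b a (by omega))
  | succ k ih =>
    intro X a b hab h1 h2 hp
    by_cases hba : b < a
    · exact Fil.zero (t.isZero X b a (by omega))
    obtain ⟨A, B, hA, hB, f, g, h, hT⟩ := t.exists_triangle X a (a + 1) rfl
    have hA1 : t.IsLE A a := ⟨hA⟩
    have hB1 : t.IsGE B (a + 1) := ⟨hB⟩
    have hA2 : t.IsGE A a := isGE1 hT h1 (t.isGE_of_ge B (a - 1) (a + 1))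
    have hB2 : t.IsLE B b := isLE3 hT (t.isLE_of_le A a (b + 1) (by omega)) h2
    obtain ⟨e1⟩ := (isH_hob (t := t) X a).unique he hc (isH_low hT ⟨hA1, hA2⟩ hB1)
    refine Fil.step le_rfl hT ((hp a).iso e1)
      (ih B (a + 1) b (by push_cast at hab; omega) hB1 hB2 (fun n => ?_))
    by_cases hn : a + 1 ≤ n
    · obtain ⟨e2⟩ := (isH_hob (t := t) X n).trunc he hc hT hA1 hn (isH_hob (t := t) B n)
      exact (hp n).iso e2
    · have h3 := isH_hob (t := t) B n
      have h4 : hd R (Hob t B n) n = 0 := by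
        rw [h3.hd he]
        exact hd_eq_zero.2 (he.isGE hB1 _ (by omega))
      have h5 : IsZero (Hob t B n) := by
        apply hc
        intro i
        by_cases hi : i = n
        · subst hi
          exact hd_eq_zero.1 h4
        · exact h3.cn.deg he i hi
      refine ⟨h3.cn, ?_⟩
      rw [h4, hd_eq_zero.2 (R'.H.map_isZero (isZero_shift h5 n))]

end Step

/-- The iterated twists. -/
def twl (T K : C) : ℕ → C
  | 0 => K
  | k + 1 => T ⊗ twl T K k

lemma IsH.twists (ht : TensorCompat t) {T : C} (hT : Cn t (-2) T) (k : ℕ) :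
    ∀ {n : ℤ} {X K : C}, IsH t (n + 2 * k) X K → IsH t n (twist T X k) (twl T K k) := by
  induction k with
  | zero =>
    intro n X K h
    have h' : IsH t n X K := by simpa using h
    exact h'
  | succ k ih =>
    intro n X K h
    apply IsH.twist_one ht hT
    apply ih
    convert! h using 1
    push_cast
    ring

lemma tot_of_inv {T T' : C} (e : T ⊗ T' ≅ 𝟙_ C) : tot R' T = 1 := by
  have h1 := tot_tensor (R := R') T T'
  have h2 : tot R' (T ⊗ T') = tot R' (𝟙_ C) := by
    unfold tot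
    exact finsum_congr (fun i => hd_iso e i)
  rw [h2, tot_unit] at h1
  exact Nat.eq_one_of_mul_eq_one_right h1.symm

lemma hd_twist {T T' : C} (e : T ⊗ T' ≅ 𝟙_ C) (hT : R'.Deg T (-2)) (K : C) (j : ℤ) :
    hd R' (T ⊗ K) j = hd R' K (j + 2) := by
  have h1 := tot_of_inv (R' := R') e
  rw [tot_of_deg hT] at h1
  rw [hd_tensor (s := {-2}) (fun i hi => hd_eq_zero.2 (hT i (by simpa using hi)))]
  simp [h1]

lemma hd_twl {T T' : C} (e : T ⊗ T' ≅ 𝟙_ C) (hT : R'.Deg T (-2)) (K : C) (k : ℕ) :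
    ∀ j : ℤ, hd R' (twl T K k) j = hd R' K (j + 2 * k) := by
  induction k with
  | zero => intro j; simp [twl]
  | succ k ih =>
    intro j
    rw [twl, hd_twist e hT, ih]
    congr 1
    push_cast
    ring

end

end Pool.Agent.T6helper6.MT
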