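import Pool.Agent.T6helper6.MT.Betti

/-!
# A second realisation on the heart of a motivic t-structure
-/

set_option autoImplicit false
set_option linter.unusedSectionVars false
set_option linter.unusedSimpArgs false
set_option backward.isDefEq.respectTransparency false
set_option backward.defeqAttrib.useBackward true

open CategoryTheory Limits MonoidalCategory Pretriangulated Triangulated TensorProduct
namespace Pool.Agent.T6helper6.MT
open Pool.Agent.Y116.MT Pool.Agent.V1178.MT
universe v u w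

section

variable {C : Type u} [Category.{v} C] [Preadditive C] [HasZeroObject C] [HasShift C ℤ]
  [∀ n : ℤ, (shiftFunctor C n).Additive] [Pretriangulated C] [MonoidalCategory C]
  [SymmetricCategory C] [TensorTriangulated C] {E : Type w} [Field E] {R : Realisation C E}

/-- Objects concentrated in degree `b`. -/
def Cn (t : TStructure C) (b : ℤ) (X : C) : Prop := t.IsLE X b ∧ t.IsGE X b

lemma Cn.shift {t : TStructure C} {X : C} {b : ℤ} (h : Cn t b X) (a c : ℤ) (hc : a + c = b) :
    Cn t c (X⟦a⟧) :=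
  ⟨@TStructure.isLE_shift _ _ _ _ _ _ _ t X b a c hc h.1,
    @TStructure.isGE_shift _ _ _ _ _ _ _ t X b a c hc h.2⟩

lemma tot_deg {M : C} (hM : R.Deg M 0) : tot R M = hd R M 0 := by
  rw [tot_eq_sum (s := {0})]
  · simp
  · intro i hi
    exact hd_eq_zero.2 (hM i (by simpa using hi))

section Tri

variable {X Y Z : C} {f : X ⟶ Y} {g : Y ⟶ Z} {h : Z ⟶ X⟦(1 : ℤ)⟧}
  (hT : Triangle.mk f g h ∈ distTriang C)

include hT

/-- Exactness in the middle. -/
lemma exact_mid (H : C ⥤ ModuleCat.{w} E) [H.Additive] [H.IsHomological] (i : ℤ) :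
    Function.Exact (H.map (f⟦i⟧')).hom (H.map (g⟦i⟧')).hom := by
  let _ := Functor.ShiftSequence.tautological H ℤ
  have h1 := H.homologySequence_exact₂ _ hT i
  exact (ShortComplex.ShortExact.moduleCat_exact_iff_function_exact _).1 h1

lemma hd_mid (i : ℤ) : hd R Y i ≤ hd R X i + hd R Z i := by
  have h1 := exact_mid hT R.H i
  have h2 := LinearMap.finrank_range_add_finrank_ker (R.H.map (g⟦i⟧')).hom
  rw [h1.linearMap_ker_eq] at h2
  have h3 : Module.finrank E (LinearMap.range (R.H.map (g⟦i⟧')).hom) ≤ hd R Z i :=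
    Submodule.finrank_le _
  have h4 : Module.finrank E (LinearMap.range (R.H.map (f⟦i⟧')).hom) ≤ hd R X i :=
    LinearMap.finrank_range_le _
  unfold hd at *
  omega

/-- Additivity if the neighbouring connecting maps vanish. -/
lemma hd_add (i : ℤ) (h1 : IsZero (R.H.obj (Z⟦i - 1⟧)) ∨ IsZero (R.H.obj (X⟦i⟧)))
    (h2 : IsZero (R.H.obj (X⟦i + 1⟧)) ∨ IsZero (R.H.obj (Z⟦i⟧))) :
    hd R Y i = hd R X i + hd R Z i := by
  have h3 := exact_mid hT R.H i
  have h4 := LinearMap.finrank_range_add_finrank_ker (R.H.map (g⟦i⟧')).hom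
  rw [h3.linearMap_ker_eq] at h4
  have h5 : Mono (R.H.map (f⟦i⟧')) := by
    rcases h1 with h1 | h1
    · exact hmono1 R.H hT i h1
    · exact IsZero.mono h1 _
  have h6 : Epi (R.H.map (g⟦i⟧')) := by
    rcases h2 with h2 | h2
    · exact hepi2 R.H hT i h2
    · exact IsZero.epi h2 _
  rw [ModuleCat.mono_iff_injective] at h5
  rw [ModuleCat.epi_iff_surjective] at h6
  rw [LinearMap.finrank_range_of_inj h5, LinearMap.range_eq_top.2 h6, finrank_top] at h4
  unfold hd at *
  omega

lemma tot_mid : tot R Y ≤ tot R X + tot R Z := by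
  obtain ⟨N, hN⟩ := hd_fin R X
  obtain ⟨M, hM⟩ := hd_fin R Y
  obtain ⟨K, hK⟩ := hd_fin R Z
  let s := Finset.Icc (-N : ℤ) N ∪ Finset.Icc (-M : ℤ) M ∪ Finset.Icc (-K : ℤ) K
  rw [tot_eq_sum (X := X) (s := s), tot_eq_sum (X := Y) (s := s), tot_eq_sum (X := Z) (s := s),
    ← Finset.sum_add_distrib]
  · exact Finset.sum_le_sum (fun i _ => hd_mid hT i)
  · intro i hi
    exact hK i (fun h => hi (Finset.mem_union_right _ h))
  · intro i hi
    exact hM i (fun h => hi (Finset.mem_union_left _ (Finset.mem_union_right _ h)))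
  · intro i hi
    exact hN i (fun h => hi (Finset.mem_union_left _ (Finset.mem_union_left _ h)))

lemma tot_add (h : ∀ i : ℤ, hd R Y i = hd R X i + hd R Z i) : tot R Y = tot R X + tot R Z := by
  unfold tot
  rw [← finsum_add_distrib (hd_support R X) (hd_support R Z)]
  exact finsum_congr h

end Tri

lemma tot_shift (X : C) (a : ℤ) : tot R (X⟦a⟧) = tot R X := by
  unfold tot
  simp_rw [hd_shift]
  exact finsum_comp_equiv (Equiv.addLeft a) (f := hd R X)

lemma tot_of_deg {M : C} {b : ℤ} (hM : R.Deg M b) : tot R M = hd R M b := by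
  rw [tot_eq_sum (s := {b})]
  · simp
  · intro i hi
    exact hd_eq_zero.2 (hM i (by simpa using hi))

lemma deg_of_tot {M : C} {b : ℤ} (hM : tot R M ≤ hd R M b) : R.Deg M b := by
  intro i hi
  rw [← hd_eq_zero]
  obtain ⟨N, hN⟩ := hd_fin R M
  by_contra h
  have h1 : i ∈ Finset.Icc (-N : ℤ) N := by
    by_contra h1
    exact h (hN i h1)
  rw [tot_eq_sum hN] at hM
  by_cases hb : b ∈ Finset.Icc (-N : ℤ) N
  · have h2 : hd R M i + hd R M b ≤ ∑ i ∈ Finset.Icc (-N : ℤ) N, hd R M i := by
      have h3 : ∑ j ∈ ({i, b} : Finset ℤ), hd R M j ≤ ∑ i ∈ Finset.Icc (-N : ℤ) N, hd R M i := by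
        apply Finset.sum_le_sum_of_subset
        intro j hj
        rw [Finset.mem_insert, Finset.mem_singleton] at hj
        rcases hj with rfl | rfl
        · exact h1
        · exact hb
      rwa [Finset.sum_pair hi] at h3
    omega
  · rw [hN b hb] at hM
    have h2 := Finset.single_le_sum (f := fun i => hd R M i) (fun _ _ => Nat.zero_le _) h1
    omega


end

section

variable {C : Type u} [Category.{v} C] [Preadditive C] [HasZeroObject C] [HasShift C ℤ]
  [∀ n : ℤ, (shiftFunctor C n).Additive] [Pretriangulated C] [MonoidalCategory C]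
  [SymmetricCategory C] [TensorTriangulated C] [MonoidalPreadditive C] [RightRigidCategory C]
  [IsTriangulated C]
  {E : Type w} [Field E] {R : Realisation C E} {E' : Type w} [Field E'] {R' : Realisation C E'}
  {t : TStructure C} (ht : TensorCompat t) (he : TExact t R) (hu : Hrt t (𝟙_ C))
  (hid : ∀ e : 𝟙_ C ⟶ 𝟙_ C, e ≫ e = e → e = 0 ∨ e = 𝟙 _)

include ht he hu hid

omit ht hu hid in
lemma hd_trunc {X A B : C} {n : ℤ} (hA : t.IsLE A n)
    (hB : t.IsGE B (n + 1)) {f : A ⟶ X} {g : X ⟶ B} {h : B ⟶ A⟦(1 : ℤ)⟧}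
    (hT : Triangle.mk f g h ∈ distTriang C) (i : ℤ) : hd R X i = hd R A i + hd R B i := by
  apply hd_add hT
  · by_cases h1 : i ≤ n + 1
    · exact Or.inl (he.isGE hB _ (by omega))
    · exact Or.inr (he.isLE hA _ (by omega))
  · by_cases h1 : n < i + 1
    · exact Or.inl (he.isLE hA _ (by omega))
    · exact Or.inr (he.isGE hB _ (by omega))

/-- The antisymmetrizer of order `rank + 1` vanishes on an object of the heart. -/
lemma alt_heart_zero' {Z : C} (hZ : Hrt t Z) :
    alt (𝟙_ C) Z (Module.finrank E (R.H.obj Z) + 1) = 0 := by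
  have h0 := fun n => pw_hrt ht hu hZ n
  apply faithful_heart ht he hu hid (h0 _) (h0 _)
  have h1 := kap_iso (fun n => he.deg (h0 n)) (Module.finrank E (R.H.obj Z) + 1)
  rw [← cancel_epi (kap R.H (𝟙_ C) Z (Module.finrank E (R.H.obj Z) + 1)), ← alt_lax,
    alt_vec_zero _ _ _ (Nat.lt_succ_self _), zero_comp, comp_zero]

lemma hd_even_le {Z : C} (hZ : Hrt t Z) {m : ℤ} (hm : Even m) : hd R' Z m ≤ tot R Z := by
  have h1 := alt_tensor_zero (braiding_even (C := C) hm) (𝟙_ C) (𝟙_ C) Z _
    (alt_heart_zero' ht he hu hid hZ)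
  have h2 : ¬ IsZero (R'.H.obj (𝟙_ C ⊗ 𝟙_ C)) := fun h =>
    not_isZero_H_unit R' (h.of_iso (R'.H.mapIso (λ_ (𝟙_ C)).symm))
  have h3 := finrank_lt_of_alt_real h2 _ h1
  have h4 : Module.finrank E' (R'.H.obj (Z ⊗ (𝟙_ C)⟦m⟧)) = hd R' Z m :=
    finrank_iso (R'.H.mapIso (rShift Z (𝟙_ C) m ≪≫ (shiftFunctor C m).mapIso (ρ_ Z)))
  rw [h4] at h3
  rw [tot_deg (he.deg hZ), hd_zero]
  omega

lemma hd_le {Z : C} (hZ : Hrt t Z) (m : ℤ) : hd R' Z m ≤ tot R Z := by
  have h1 := hd_even_le (R' := R') ht he hu hid (ht.hrt hZ hZ) (m := m + m) ⟨m, rfl⟩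
  rw [tot_tensor] at h1
  obtain ⟨N, hN⟩ := hd_fin R' Z
  have h2 : hd R' Z m * hd R' Z m ≤ hd R' (Z ⊗ Z) (m + m) := by
    rw [hd_tensor hN]
    by_cases hm : m ∈ Finset.Icc (-N : ℤ) N
    · have h3 := Finset.single_le_sum (f := fun i => hd R' Z i * hd R' Z (m + m - i))
        (fun _ _ => Nat.zero_le _) hm
      simpa using h3
    · rw [hN m hm]
      simp
  by_contra h3
  push Not at h3
  exact absurd (h2.trans h1) (not_le.2 (Nat.mul_lt_mul'' h3 h3))

/-- The total Betti number of a second realisation is at most the rank on the heart. -/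
theorem tot_le_heart {M : C} (hM : Hrt t M) : tot R' M ≤ tot R M := by
  apply power_trick
  intro n i
  rw [← tot_pw]
  exact hd_le ht he hu hid (pw_hrt ht hu hM n) i

omit hu hid ht in
lemma Cn.deg {X : C} {b : ℤ} (h : Cn t b X) : R.Deg X b := by
  intro i hi
  rcases lt_or_gt_of_ne hi with h1 | h1
  · exact he.isGE h.2 i h1
  · exact he.isLE h.1 i h1

/-- The total Betti number of a second realisation is at most the rank. -/
theorem tot_le_cn {M : C} {b : ℤ} (hM : Cn t b M) : tot R' M ≤ hd R M b := by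
  have h1 := tot_le_heart (R' := R') ht he hu hid (hM.shift b 0 (by omega))
  rw [tot_shift, tot_shift, tot_of_deg (hM.deg he)] at h1
  exact h1

/-- The total Betti number of a second realisation is at most the one of a realisation with a
motivic t-structure. -/
theorem tot_le_bounded (k : ℕ) : ∀ (X : C) (a b : ℤ), b - a < k → t.IsGE X a → t.IsLE X b →
    tot R' X ≤ tot R X := by
  induction k with
  | zero =>
    intro X a b hab h1 h2
    have h3 : IsZero X := t.isZero X b a (by omega)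
    rw [tot_eq_sum (s := ∅)]
    · simp
    · intro i _
      exact hd_eq_zero.2 (R'.H.map_isZero (isZero_shift h3 i))
  | succ k ih =>
    intro X a b hab h1 h2
    obtain ⟨A, B, hA, hB, f, g, h, hT⟩ := t.exists_triangle X a (a + 1) rfl
    have hA1 : t.IsLE A a := ⟨hA⟩
    have hB1 : t.IsGE B (a + 1) := ⟨hB⟩
    have hA2 : t.IsGE A a := isGE1 hT h1 (t.isGE_of_ge B (a - 1) (a + 1))
    rw [tot_add hT (hd_trunc he hA1 hB1 hT), tot_of_deg (Cn.deg he ⟨hA1, hA2⟩)]
    refine (tot_mid hT).trans (Nat.add_le_add (tot_le_cn ht he hu hid ⟨hA1, hA2⟩) ?_)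
    by_cases hba : a ≤ b
    · have hB2 : t.IsLE B b := isLE3 hT (t.isLE_of_le A a (b + 1) (by omega)) h2
      exact ih B (a + 1) b (by push_cast at hab; omega) hB1 hB2
    · have hB2 : t.IsLE B a := isLE3 hT (t.isLE_of_le A a (a + 1) (by omega))
        (t.isLE_of_le X b a (by omega))
      exact ih B (a + 1) a (by omega) hB1 hB2

end

end Pool.Agent.T6helper6.MT
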